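import Pool.Agent.Work.MP_19858b_an.Aus

set_option autoImplicit false

namespace Pool.Agent.Companion

open Filter Topology Set

variable {E : Type} [NormedAddCommGroup E] [NormedSpace ℝ E]

/-- A Baire category argument in the space of equivalent norms. -/
theorem baire_seminorm (U : ℕ → Seminorm ℝ E → Prop)
    (hU : ∀ n, ∀ p : Seminorm ℝ E, Eqv p → ∀ ε : ℝ, 0 < ε → ∃ q : Seminorm ℝ E, Eqv q ∧
      ∃ δ : ℝ, 0 < δ ∧ ∀ r : Seminorm ℝ E, Eqv r → (∀ x, |q x - r x| ≤ δ * ‖x‖) →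
        (∀ x, |p x - r x| ≤ ε * ‖x‖) ∧ U n r) :
    ∃ p : Seminorm ℝ E, Eqv p ∧ ∀ n, U n p := by
  classical
  -- states
  let St := {s : Seminorm ℝ E × ℝ // Eqv s.1 ∧ 0 < s.2}
  have hstep : ∀ n : ℕ, ∀ s : St, ∃ s' : St, s'.1.2 ≤ s.1.2 / 2 ∧
      ∀ r : Seminorm ℝ E, Eqv r → (∀ x, |s'.1.1 x - r x| ≤ s'.1.2 * ‖x‖) →
        (∀ x, |s.1.1 x - r x| ≤ s.1.2 * ‖x‖) ∧ U n r := by
    rintro n ⟨⟨p, ε⟩, hp, hε⟩
    obtain ⟨q, hq, δ, hδ, H⟩ := hU n p hp ε hε
    refine ⟨⟨⟨q, min δ (ε / 2)⟩, hq, by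
      show 0 < min δ (ε / 2)
      exact lt_min hδ (half_pos hε)⟩, min_le_right _ _, fun r hr hqr => ?_⟩
    exact H r hr (fun x => (hqr x).trans
      (mul_le_mul_of_nonneg_right (min_le_left _ _) (norm_nonneg _)))
  choose step hstep1 hstep2 using hstep
  have h0 : Eqv (normSeminorm ℝ E) := ⟨1, 1, one_pos, one_pos, fun x => by simp⟩
  let s0 : St := ⟨⟨normSeminorm ℝ E, 1 / 2⟩, h0, by norm_num⟩
  let S : ℕ → St := fun n => Nat.rec s0 (fun n s => step n s) n
  have hS0 : S 0 = s0 := rfl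
  have hS : ∀ n, S (n + 1) = step n (S n) := fun n => rfl
  let p : ℕ → Seminorm ℝ E := fun n => (S n).1.1
  let ε : ℕ → ℝ := fun n => (S n).1.2
  have hpE : ∀ n, Eqv (p n) := fun n => (S n).2.1
  have hεpos : ∀ n, 0 < ε n := fun n => (S n).2.2
  have hε : ∀ n, ε n ≤ (1 / 2) ^ (n + 1) := by
    intro n
    induction n with
    | zero => show (1 / 2 : ℝ) ≤ _; norm_num
    | succ n ih =>
      have h1 : ε (n + 1) ≤ ε n / 2 := by
        have := hstep1 n (S n)
        rw [← hS] at this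
        exact this
      have : (1 / 2 : ℝ) ^ (n + 1 + 1) = (1 / 2) ^ (n + 1) / 2 := by ring
      rw [this]; linarith
  have hnest : ∀ n, ∀ r : Seminorm ℝ E, Eqv r → (∀ x, |p (n + 1) x - r x| ≤ ε (n + 1) * ‖x‖) →
      (∀ x, |p n x - r x| ≤ ε n * ‖x‖) ∧ U n r := by
    intro n r hr h
    have := hstep2 n (S n) r hr
    rw [← hS] at this
    exact this h
  have hnest2 : ∀ d n, ∀ r : Seminorm ℝ E, Eqv r →
      (∀ x, |p (n + d) x - r x| ≤ ε (n + d) * ‖x‖) → (∀ x, |p n x - r x| ≤ ε n * ‖x‖) := by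
    intro d
    induction d with
    | zero => intro n r _ h; exact h
    | succ d ih =>
      intro n r hr h
      exact ih n r hr (hnest (n + d) r hr h).1
  have hclose : ∀ n m, n ≤ m → ∀ x, |p n x - p m x| ≤ ε n * ‖x‖ := by
    intro n m hnm
    obtain ⟨d, rfl⟩ := Nat.exists_eq_add_of_le hnm
    refine hnest2 d n (p (n + d)) (hpE _) (fun x => ?_)
    rw [sub_self, abs_zero]
    exact mul_nonneg (hεpos _).le (norm_nonneg _)
  have hε0 : Tendsto (fun n : ℕ => (1 / 2 : ℝ) ^ (n + 1)) atTop (𝓝 0) :=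
    (tendsto_pow_atTop_nhds_zero_of_lt_one (by norm_num) (by norm_num)).comp
      (tendsto_add_atTop_nat 1)
  have hlim : ∀ x, ∃ l : ℝ, Tendsto (fun n => p n x) atTop (𝓝 l) := by
    intro x
    refine cauchySeq_tendsto_of_complete ?_
    refine cauchySeq_of_le_tendsto_0' (fun n => (1 / 2 : ℝ) ^ (n + 1) * ‖x‖) (fun n m hnm => ?_) ?_
    · rw [Real.dist_eq]
      exact (hclose n m hnm x).trans (mul_le_mul_of_nonneg_right (hε n) (norm_nonneg _))
    · simpa using hε0.mul_const ‖x‖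
  choose L hL using hlim
  let P : Seminorm ℝ E := Seminorm.of L
    (fun x y => le_of_tendsto_of_tendsto' (hL (x + y)) ((hL x).add (hL y))
      (fun n => map_add_le_add (p n) x y))
    (fun a x => by
      refine tendsto_nhds_unique (hL (a • x)) ?_
      have : (fun n => p n (a • x)) = fun n => ‖a‖ * p n x := by
        funext n; exact map_smul_eq_mul _ _ _
      rw [this]
      exact (hL x).const_mul _)
  have hP : ∀ x, P x = L x := fun x => rfl
  have hPclose : ∀ n x, |p n x - P x| ≤ ε n * ‖x‖ := by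
    intro n x
    have h1 : Tendsto (fun m => |p n x - p m x|) atTop (𝓝 |p n x - L x|) :=
      ((tendsto_const_nhds).sub (hL x)).abs
    exact le_of_tendsto h1 (eventually_atTop.2 ⟨n, fun m hm => hclose n m hm x⟩)
  have hPE : Eqv P := by
    refine ⟨1 / 2, 3 / 2, by norm_num, by norm_num, fun x => ?_⟩
    have h1 := hPclose 0 x
    have h2 : p 0 x = ‖x‖ := rfl
    have h3 : ε 0 = 1 / 2 := rfl
    rw [h2, h3, abs_le] at h1
    constructor <;> linarith [h1.1, h1.2]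
  exact ⟨P, hPE, fun n => (hnest n P hPE (hPclose (n + 1))).2⟩

end Pool.Agent.Companion
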