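import Pool.Agent.Work.MP_19858b_an.Norm
import Pool.Agent.Work.MP_19858b_an.BaireNorm

set_option autoImplicit false

namespace Pool.Agent.Companion

open Filter Topology Set

section

variable {E : Type} [NormedAddCommGroup E] [NormedSpace ℝ E]

theorem all_of_sup_lt {p r : Seminorm ℝ E} (hp : Eqv p) (hr : Eqv r) {ε : ℝ}
    (h : (⨆ x : Metric.closedBall (0 : E) 1, |p (x : E) - r (x : E)|) < ε) (x : E) :
    |p x - r x| ≤ ε * ‖x‖ := by
  obtain ⟨a, b, ha, hb, hab⟩ := hp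
  obtain ⟨a', b', ha', hb', hab'⟩ := hr
  have hbdd : BddAbove (range fun x : Metric.closedBall (0 : E) 1 => |p (x : E) - r (x : E)|) := by
    refine ⟨b + b', ?_⟩
    rintro _ ⟨⟨y, hy⟩, rfl⟩
    have hy1 : ‖y‖ ≤ 1 := by simpa using hy
    show |p y - r y| ≤ b + b'
    have h1 := (hab y).2
    have h2 := (hab' y).2
    have h3 := apply_nonneg p y
    have h4 := apply_nonneg r y
    rw [abs_le]
    constructor <;> nlinarith
  rcases eq_or_ne x 0 with rfl | hx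
  · simp
  · have hx0 : 0 < ‖x‖ := norm_pos_iff.2 hx
    have hmem : ‖x‖⁻¹ • x ∈ Metric.closedBall (0 : E) 1 := by
      rw [mem_closedBall_zero_iff, norm_smul, norm_inv, norm_norm, inv_mul_cancel₀ hx0.ne']
    have h1 := le_ciSup hbdd ⟨‖x‖⁻¹ • x, hmem⟩
    simp only [map_smul_eq_mul, norm_inv, norm_norm] at h1
    rw [← mul_sub, abs_mul, abs_of_pos (inv_pos.2 hx0), inv_mul_le_iff₀ hx0] at h1
    calc |p x - r x| ≤ ‖x‖ * _ := h1
      _ ≤ ‖x‖ * ε := mul_le_mul_of_nonneg_left h.le hx0.le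
      _ = ε * ‖x‖ := mul_comm _ _

theorem sup_le_of_all {p r : Seminorm ℝ E} {δ : ℝ} (hδ : 0 ≤ δ)
    (h : ∀ x, |p x - r x| ≤ δ * ‖x‖) :
    (⨆ x : Metric.closedBall (0 : E) 1, |p (x : E) - r (x : E)|) ≤ δ := by
  have : Nonempty (Metric.closedBall (0 : E) 1) := ⟨⟨0, by simp⟩⟩
  refine ciSup_le fun ⟨y, hy⟩ => ?_
  have hy1 : ‖y‖ ≤ 1 := by simpa using hy
  refine (h y).trans ?_
  nlinarith

/-- Norms on `c_0` admitting a companion norm do not form a first category set. -/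
theorem not_first_category {ev : ℕ → E →L[ℝ] ℝ} (hE : IsC0 E ev) (F : ℕ → Set (Seminorm ℝ E))
    (hF1 : ∀ p : Seminorm ℝ E, Eqv p →
      (∃ q : Seminorm ℝ E, Eqv q ∧
        ∀ x : E, 1 < p x → ∀ y : E, p y ≤ 1 → ∃ z : E, p z ≤ 1 ∧ q (x - z) < q (x - y)) →
      ∃ n : ℕ, p ∈ F n)
    (hF2 : ∀ n : ℕ, ∀ p : Seminorm ℝ E, Eqv p → ∀ ε : ℝ, 0 < ε →
        ∃ q : Seminorm ℝ E, Eqv q ∧ ∃ δ : ℝ, 0 < δ ∧
            ∀ r : Seminorm ℝ E, Eqv r →
              (⨆ x : Metric.closedBall (0 : E) 1, |q (x : E) - r (x : E)|) < δ →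
              ((⨆ x : Metric.closedBall (0 : E) 1, |p (x : E) - r (x : E)|) < ε ∧ r ∉ F n)) :
    False := by
  obtain ⟨p, hp, hU⟩ := baire_seminorm (E := E)
    (fun n r => Aus ev r (2 * (1 / ((n : ℝ) + 1))) ∧ r ∉ F n) (by
      intro n p hp ε hε
      obtain ⟨p1, hp1, hpp1, haus⟩ := exists_aus_near hE p hp (half_pos hε)
      have hθ : (0 : ℝ) < 1 / ((n : ℝ) + 1) := by positivity
      obtain ⟨δ1, hδ1, hopen⟩ := Aus.open hθ (haus _ hθ) hp1
      have hε1 : 0 < min δ1 (ε / 2) := lt_min hδ1 (half_pos hε)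
      obtain ⟨q, hq, δ, hδ, hball⟩ := hF2 n p1 hp1 _ hε1
      refine ⟨q, hq, δ / 2, half_pos hδ, fun r hr hqr => ?_⟩
      obtain ⟨h1, h2⟩ := hball r hr ((sup_le_of_all (half_pos hδ).le hqr).trans_lt (half_lt_self hδ))
      have h3 := all_of_sup_lt hp1 hr h1
      refine ⟨fun x => ?_, hopen r fun x => (h3 x).trans
        (mul_le_mul_of_nonneg_right (min_le_left _ _) (norm_nonneg _)), h2⟩
      have h4 := hpp1 x
      have h5 := (h3 x).trans (mul_le_mul_of_nonneg_right (min_le_right _ _) (norm_nonneg _))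
      have h6 := abs_sub_le (p x) (p1 x) (r x)
      linarith)
  have haus : ∀ θ : ℝ, 0 < θ → Aus ev p θ := by
    intro θ hθ
    obtain ⟨n, hn⟩ := exists_nat_gt (2 / θ)
    refine (hU n).1.mono ?_
    rw [div_lt_iff₀ hθ] at hn
    rw [mul_one_div, div_le_iff₀ (by positivity)]
    nlinarith
  obtain ⟨n, hn⟩ := hF1 p hp (companion_of_aus hE hp haus)
  exact (hU n).2 hn

end

theorem nontrivial_X : Nontrivial X := by
  refine ⟨⟨0, mk0 (fun k => if k = 0 then 1 else 0) ?_, fun h => ?_⟩⟩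
  · refine tendsto_const_nhds.congr' (eventually_atTop.2 ⟨1, fun k hk => ?_⟩)
    show (0 : ℝ) = if k = 0 then 1 else 0
    rw [if_neg (by omega)]
  · have := congrArg (fun x : X => x 0) h
    simp at this

end Pool.Agent.Companion
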