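import Pool.Agent.Work.MP_19858b_an.Basic

set_option autoImplicit false

namespace Pool.Agent.Companion

open Filter Topology Set
open scoped Pointwise

variable {E : Type} [NormedAddCommGroup E] [NormedSpace ℝ E] (ev : ℕ → E →L[ℝ] ℝ)

/-- Asymptotic smoothness of `p` at level `θ`. -/
def Aus (p : Seminorm ℝ E) (θ : ℝ) : Prop :=
  ∃ τ : ℝ, 0 < τ ∧ ∀ x : E, p x < 1 → ∃ n : ℕ, ∀ z : E, (∀ k < n, ev k z = 0) → ‖z‖ ≤ 1 →
    p (x + τ • z) ≤ 1 + θ * τ

variable {ev}

theorem Aus.mono {p : Seminorm ℝ E} {θ θ' : ℝ} (h : Aus ev p θ) (hθ : θ ≤ θ') : Aus ev p θ' := by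
  obtain ⟨τ, hτ, H⟩ := h
  refine ⟨τ, hτ, fun x hx => ?_⟩
  obtain ⟨n, hn⟩ := H x hx
  refine ⟨n, fun z hz hz1 => (hn z hz hz1).trans ?_⟩
  have : θ * τ ≤ θ' * τ := mul_le_mul_of_nonneg_right hθ hτ.le
  linarith

/-- Openness of the property `Aus`. -/
theorem Aus.open {p : Seminorm ℝ E} {θ : ℝ} (hθ : 0 < θ) (h : Aus ev p θ) (hp : Eqv p) :
    ∃ δ : ℝ, 0 < δ ∧ ∀ r : Seminorm ℝ E, (∀ x, |p x - r x| ≤ δ * ‖x‖) → Aus ev r (2 * θ) := by
  obtain ⟨a, b, ha, hb, hab⟩ := hp
  obtain ⟨τ, hτ, H⟩ := h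
  refine ⟨min (a / 2) (θ * τ / (4 / a + τ)), by positivity, fun r hr => ?_⟩
  set δ := min (a / 2) (θ * τ / (4 / a + τ)) with hδ
  have hδ0 : 0 < δ := by positivity
  have hδ1 : δ ≤ a / 2 := min_le_left _ _
  have hδ2 : δ * (4 / a + τ) ≤ θ * τ := by
    have : δ ≤ θ * τ / (4 / a + τ) := min_le_right _ _
    rwa [le_div_iff₀ (by positivity)] at this
  refine ⟨τ, hτ, fun x hx => ?_⟩
  -- bound on the norm of `x`
  have hrx : a / 2 * ‖x‖ ≤ r x := by
    have h1 := (abs_le.1 (hr x)).2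
    have h2 := (hab x).1
    have h3 : δ * ‖x‖ ≤ a / 2 * ‖x‖ := mul_le_mul_of_nonneg_right hδ1 (norm_nonneg _)
    linarith
  have hxn : ‖x‖ ≤ 2 / a := by
    rw [le_div_iff₀ ha]
    nlinarith
  set s : ℝ := 1 + 2 * δ / a with hs
  have hs0 : 0 < s := by positivity
  have hs1 : 1 ≤ s := by
    have : 0 ≤ 2 * δ / a := by positivity
    linarith
  have hpx : p x < s := by
    have h1 := (abs_le.1 (hr x)).2
    have h3 : δ * ‖x‖ ≤ δ * (2 / a) := mul_le_mul_of_nonneg_left hxn hδ0.le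
    have h4 : δ * (2 / a) = 2 * δ / a := by ring
    linarith
  have hpx' : p (s⁻¹ • x) < 1 := by
    rw [map_smul_eq_mul, Real.norm_of_nonneg (inv_nonneg.2 hs0.le), inv_mul_lt_iff₀ hs0]
    simpa using hpx
  obtain ⟨n, hn⟩ := H _ hpx'
  refine ⟨n, fun z hz hz1 => ?_⟩
  have e1 := hn z hz hz1
  have e2 : x + τ • z = (s⁻¹ • x + τ • z) + (1 - s⁻¹) • x := by
    module
  have hs2 : 0 ≤ 1 - s⁻¹ := by
    have := inv_le_one_of_one_le₀ hs1
    linarith
  have e3 : r (x + τ • z) ≤ r (s⁻¹ • x + τ • z) + (1 - s⁻¹) * r x := by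
    rw [e2]
    refine (map_add_le_add r _ _).trans ?_
    rw [map_smul_eq_mul, Real.norm_of_nonneg hs2]
  have e4 : (1 - s⁻¹) * r x ≤ 2 * δ / a := by
    have h1 : (1 - s⁻¹) * r x ≤ (1 - s⁻¹) * 1 := mul_le_mul_of_nonneg_left hx.le hs2
    have h2 : 1 - s⁻¹ ≤ s - 1 := by
      have : s * s⁻¹ = 1 := mul_inv_cancel₀ hs0.ne'
      have h5 : 0 < s⁻¹ := inv_pos.2 hs0
      nlinarith [sq_nonneg (s - 1)]
    have : s - 1 = 2 * δ / a := by rw [hs]; ring
    linarith
  have e5 : r (s⁻¹ • x + τ • z) ≤ p (s⁻¹ • x + τ • z) + δ * (2 / a + τ) := by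
    have h1 := (abs_le.1 (hr (s⁻¹ • x + τ • z))).1
    have h2 : ‖s⁻¹ • x + τ • z‖ ≤ 2 / a + τ := by
      refine (norm_add_le _ _).trans ?_
      rw [norm_smul, norm_smul, Real.norm_of_nonneg (inv_nonneg.2 hs0.le),
        Real.norm_of_nonneg hτ.le]
      have h3 : s⁻¹ ≤ 1 := inv_le_one_of_one_le₀ hs1
      have h4 : s⁻¹ * ‖x‖ ≤ 1 * ‖x‖ := mul_le_mul_of_nonneg_right h3 (norm_nonneg _)
      have h5 : τ * ‖z‖ ≤ τ * 1 := mul_le_mul_of_nonneg_left hz1 hτ.le
      linarith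
    have h3 := mul_le_mul_of_nonneg_left h2 hδ0.le
    linarith
  have e6 : δ * (2 / a + τ) + 2 * δ / a = δ * (4 / a + τ) := by ring
  have : 1 + 2 * θ * τ = 1 + θ * τ + θ * τ := by ring
  linarith

/-- Density of the property `Aus`. -/
theorem exists_aus_near (hE : IsC0 E ev) (p : Seminorm ℝ E) (hp : Eqv p) {ε : ℝ} (hε : 0 < ε) :
    ∃ p' : Seminorm ℝ E, Eqv p' ∧ (∀ x, |p x - p' x| ≤ ε * ‖x‖) ∧
      ∀ θ : ℝ, 0 < θ → Aus ev p' θ := by
  obtain ⟨a, b, ha, hb, hab⟩ := hp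
  set η : ℝ := ε / (b * b) with hη
  have hη0 : 0 < η := by positivity
  set s : Set E := p.ball 0 1 + Metric.ball (0 : E) η with hs
  have hsconv : Convex ℝ s := (p.convex_ball 0 1).add (convex_ball _ _)
  have hsopen : IsOpen s := Metric.isOpen_ball.add_left
  have h0s : (0 : E) ∈ s := ⟨0, by simp, 0, by simpa using hη0, by simp⟩
  have hsnhds : s ∈ 𝓝 (0 : E) := hsopen.mem_nhds h0s
  have habs : Absorbent ℝ s := absorbent_nhds_zero hsnhds
  have hbal : Balanced ℝ s := (p.balanced_ball_zero 1).add (by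
    have := (normSeminorm ℝ E).balanced_ball_zero η
    rwa [ball_normSeminorm] at this)
  set p' : Seminorm ℝ E := gaugeSeminorm hbal hsconv habs with hp'
  have hp'1 : ∀ x, p' x = gauge s x := fun x => rfl
  have hlt : ∀ x, p' x < 1 ↔ x ∈ s := by
    intro x
    rw [hp'1, gauge_lt_one_iff_mem_interior hsconv hsnhds, hsopen.interior_eq]
  have hsub : p.ball 0 1 ⊆ s := fun x hx => ⟨x, hx, 0, by simpa using hη0, by simp⟩
  have hle : ∀ x, p' x ≤ p x := by
    intro x
    have h1 := gauge_mono (s := p.ball 0 1) (p.absorbent_ball_zero one_pos) hsub x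
    rwa [Seminorm.gauge_ball] at h1
  have hge : ∀ x, p x ≤ (1 + b * η) * p' x := by
    have key : ∀ x, x ∈ s → p x < 1 + b * η := by
      rintro x ⟨y, hy, z, hz, rfl⟩
      have h1 : p y < 1 := by simpa [Seminorm.mem_ball_zero] using hy
      have h2 : ‖z‖ < η := by simpa using hz
      have h3 := (hab z).2
      have h4 : b * ‖z‖ ≤ b * η := mul_le_mul_of_nonneg_left h2.le hb.le
      have h5 := map_add_le_add p y z
      show p (y + z) < _
      linarith
    intro x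
    by_contra hcon
    push Not at hcon
    have hpos : 0 < 1 + b * η := by positivity
    -- choose t with p' x < t and (1+bη) t < p x
    obtain ⟨t, ht1, ht2⟩ := exists_between (show p' x < p x / (1 + b * η) by
      rw [lt_div_iff₀ hpos]; linarith)
    have ht0 : 0 < t := lt_of_le_of_lt (apply_nonneg p' x) ht1
    have h6 : t⁻¹ • x ∈ s := by
      rw [← hlt, map_smul_eq_mul, Real.norm_of_nonneg (inv_nonneg.2 ht0.le), inv_mul_lt_iff₀ ht0]
      simpa using ht1
    have h7 := key _ h6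
    rw [map_smul_eq_mul, Real.norm_of_nonneg (inv_nonneg.2 ht0.le), inv_mul_lt_iff₀ ht0] at h7
    rw [lt_div_iff₀ hpos] at ht2
    linarith
  refine ⟨p', ⟨a / (1 + b * η), b, by positivity, hb, fun x => ⟨?_, (hle x).trans (hab x).2⟩⟩,
    fun x => ?_, fun θ hθ => ?_⟩
  · rw [div_mul_eq_mul_div, div_le_iff₀ (by positivity)]
    have := hge x
    have := (hab x).1
    linarith
  · have h1 := hle x
    have h2 := hge x
    have h3 := (hab x).2
    rw [abs_of_nonneg (by linarith)]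
    have h4 : b * η * p' x ≤ b * η * (b * ‖x‖) :=
      mul_le_mul_of_nonneg_left (h1.trans h3) (by positivity)
    have h5 : b * η * (b * ‖x‖) = ε * ‖x‖ := by
      rw [hη]; field_simp
    linarith
  · refine ⟨η / 2, by positivity, fun x hx => ?_⟩
    obtain ⟨y, hy, w, hw, rfl⟩ := (hlt x).1 hx
    have hwn : ‖w‖ < η := by simpa using hw
    have hev : ∀ᶠ k in atTop, |ev k w| < η / 4 := by
      have := (hE.tends w)
      rw [Metric.tendsto_atTop] at this
      obtain ⟨N, hN⟩ := this (η / 4) (by positivity)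
      exact eventually_atTop.2 ⟨N, fun k hk => by simpa using hN k hk⟩
    obtain ⟨n, hn⟩ := eventually_atTop.1 hev
    refine ⟨n, fun z hz hz1 => ?_⟩
    have hmem : (y + w) + (η / 2) • z ∈ s := by
      refine ⟨y, hy, w + (η / 2) • z, ?_, by simp [add_assoc]⟩
      have : ‖w + (η / 2) • z‖ ≤ max ‖w‖ (3 * η / 4) := by
        refine hE.norm_le _ _ (le_max_of_le_left (norm_nonneg _)) (fun k => ?_)
        rw [map_add, map_smul, smul_eq_mul]
        rcases lt_or_ge k n with hk | hk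
        · rw [hz k hk]
          simpa using Or.inl (hE.abs_le k w)
        · refine le_max_of_le_right ?_
          have h1 := hn k hk
          have h2 : |η / 2 * ev k z| ≤ η / 2 := by
            rw [abs_mul, abs_of_pos (by positivity : 0 < η / 2)]
            have := (hE.abs_le k z).trans hz1
            nlinarith
          have := abs_add_le (ev k w) (η / 2 * ev k z)
          linarith
      have h3 : max ‖w‖ (3 * η / 4) < η := max_lt hwn (by linarith)
      simpa using this.trans_lt h3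
    have := (hlt _).2 hmem
    have h0 : 0 ≤ θ * (η / 2) := by positivity
    show p' ((y + w) + (η / 2) • z) ≤ _
    linarith

end Pool.Agent.Companion
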