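import Mathlib

set_option autoImplicit false

/-!
# Basic facts on `c_0` and equivalent norms

We work with an abstract copy of `c_0`: a normed space `E` with coordinate functionals `ev`.
-/

namespace Pool.Agent.Companion

open Filter Topology Set

/-- `p` is an equivalent norm. -/
def Eqv {E : Type} [NormedAddCommGroup E] [NormedSpace ℝ E] (p : Seminorm ℝ E) : Prop :=
  ∃ a b : ℝ, 0 < a ∧ 0 < b ∧ ∀ x : E, a * ‖x‖ ≤ p x ∧ p x ≤ b * ‖x‖

/-- `E` with the coordinate functionals `ev` is a copy of `c_0`. -/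
structure IsC0 (E : Type) [NormedAddCommGroup E] [NormedSpace ℝ E] (ev : ℕ → E →L[ℝ] ℝ) :
    Prop where
  abs_le : ∀ k x, |ev k x| ≤ ‖x‖
  tends : ∀ x, Tendsto (fun k => ev k x) atTop (𝓝 0)
  norm_le : ∀ (x : E) (C : ℝ), 0 ≤ C → (∀ k, |ev k x| ≤ C) → ‖x‖ ≤ C
  exists_mk : ∀ f : ℕ → ℝ, Tendsto f atTop (𝓝 0) → ∃ x : E, ∀ k, ev k x = f k

section Model

/-- The space `c_0`. -/
abbrev X : Type := ZeroAtInftyContinuousMap ℕ ℝ

theorem abs_apply_le (x : X) (k : ℕ) : |x k| ≤ ‖x‖ := by
  have h := (ZeroAtInftyContinuousMap.toBCF x).norm_coe_le_norm k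
  simpa using h

theorem norm_le_of_forall (x : X) {C : ℝ} (hC : 0 ≤ C) (h : ∀ k, |x k| ≤ C) : ‖x‖ ≤ C := by
  have := (BoundedContinuousFunction.norm_le (f := ZeroAtInftyContinuousMap.toBCF x) hC).2
    (fun k => by simpa using h k)
  simpa using this

theorem tendsto_apply (x : X) : Tendsto (fun k => x k) atTop (𝓝 0) := by
  have := x.zero_at_infty'
  rw [Filter.cocompact_eq_cofinite, Nat.cofinite_eq_atTop] at this
  exact this

/-- The element of `c_0` given by a null sequence. -/
def mk0 (f : ℕ → ℝ) (h : Tendsto f atTop (𝓝 0)) : X where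
  toFun := f
  continuous_toFun := continuous_of_discreteTopology
  zero_at_infty' := by
    rw [Filter.cocompact_eq_cofinite, Nat.cofinite_eq_atTop]
    exact h

@[simp] theorem mk0_apply (f : ℕ → ℝ) (h : Tendsto f atTop (𝓝 0)) (k : ℕ) : mk0 f h k = f k := rfl

/-- Coordinate functionals. -/
noncomputable def evX (k : ℕ) : X →L[ℝ] ℝ :=
  LinearMap.mkContinuous
    { toFun := fun x => x k
      map_add' := fun _ _ => rfl
      map_smul' := fun _ _ => rfl } 1 (fun x => by
        simpa using abs_apply_le x k)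

@[simp] theorem evX_apply (k : ℕ) (x : X) : evX k x = x k := rfl

theorem isC0_X : IsC0 X evX where
  abs_le k x := abs_apply_le x k
  tends x := tendsto_apply x
  norm_le x _C hC h := norm_le_of_forall x hC h
  exists_mk f h := ⟨mk0 f h, fun _ => rfl⟩

end Model

end Pool.Agent.Companion
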