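import Pool.Agent.Work.MP_19858b_an.Basic

set_option autoImplicit false

namespace Pool.Agent.Companion

open Filter Topology Set

variable {E : Type} [NormedAddCommGroup E] [NormedSpace ℝ E]

/-- The dual norm of `p` (supremum over the open unit ball of `p`). -/
noncomputable def dn (p : Seminorm ℝ E) (f : E →L[ℝ] ℝ) : ℝ := sSup (f '' {x | p x < 1})

section

variable {p : Seminorm ℝ E} {a : ℝ}

theorem norm_le_of_lt_one (ha : 0 < a) (h : ∀ x, a * ‖x‖ ≤ p x) {x : E} (hx : p x ≤ 1) :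
    ‖x‖ ≤ 1 / a := by
  rw [le_div_iff₀ ha]
  have := h x
  linarith

theorem bdd (ha : 0 < a) (h : ∀ x, a * ‖x‖ ≤ p x) (f : E →L[ℝ] ℝ) :
    BddAbove (f '' {x | p x < 1}) := by
  refine ⟨‖f‖ * (1 / a), ?_⟩
  rintro _ ⟨x, hx, rfl⟩
  refine (le_abs_self _).trans ((f.le_opNorm x).trans ?_)
  exact mul_le_mul_of_nonneg_left (norm_le_of_lt_one ha h (le_of_lt hx)) (norm_nonneg _)

theorem nonem (f : E →L[ℝ] ℝ) : (f '' {x | p x < 1}).Nonempty := ⟨f 0, 0, by simp, rfl⟩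

theorem dn_le {f : E →L[ℝ] ℝ} {M : ℝ} (h : ∀ x, p x < 1 → f x ≤ M) : dn p f ≤ M := by
  refine csSup_le (nonem f) ?_
  rintro _ ⟨x, hx, rfl⟩
  exact h x hx

theorem le_dn_of_lt (ha : 0 < a) (h : ∀ x, a * ‖x‖ ≤ p x) (f : E →L[ℝ] ℝ) {x : E}
    (hx : p x < 1) : f x ≤ dn p f :=
  le_csSup (bdd ha h f) ⟨x, hx, rfl⟩

theorem le_dn (ha : 0 < a) (h : ∀ x, a * ‖x‖ ≤ p x) (f : E →L[ℝ] ℝ) {x : E}
    (hx : p x ≤ 1) : f x ≤ dn p f := by
  by_contra hcon
  push Not at hcon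
  have h0 : 0 ≤ dn p f := by
    have := le_dn_of_lt ha h f (x := 0) (by simp)
    simpa using this
  have hfx : 0 < f x := lt_of_le_of_lt h0 hcon
  -- choose s < 1 with s * f x > dn
  obtain ⟨s, hs1, hs2⟩ := exists_between (show dn p f / f x < 1 by
    rw [div_lt_one hfx]; exact hcon)
  have hs0 : 0 ≤ s := (div_nonneg h0 hfx.le).trans hs1.le
  have h1 : p (s • x) < 1 := by
    rw [map_smul_eq_mul, Real.norm_of_nonneg hs0]
    nlinarith [apply_nonneg p x]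
  have h2 := le_dn_of_lt ha h f h1
  rw [map_smul, smul_eq_mul] at h2
  rw [div_lt_iff₀ hfx] at hs1
  linarith

theorem dn_nonneg (ha : 0 < a) (h : ∀ x, a * ‖x‖ ≤ p x) (f : E →L[ℝ] ℝ) : 0 ≤ dn p f := by
  have := le_dn ha h f (x := 0) (by simp)
  simpa using this

theorem exists_lt_dn (f : E →L[ℝ] ℝ) {ε : ℝ} (hε : 0 < ε) :
    ∃ x, p x < 1 ∧ dn p f - ε < f x := by
  obtain ⟨_, ⟨x, hx, rfl⟩, h⟩ := exists_lt_of_lt_csSup (nonem (p := p) f)
    (show dn p f - ε < dn p f by linarith)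
  exact ⟨x, hx, h⟩

theorem dn_add_le (ha : 0 < a) (h : ∀ x, a * ‖x‖ ≤ p x) (f g : E →L[ℝ] ℝ) :
    dn p (f + g) ≤ dn p f + dn p g :=
  dn_le fun _ hx => add_le_add (le_dn_of_lt ha h f hx) (le_dn_of_lt ha h g hx)

theorem dn_smul (ha : 0 < a) (h : ∀ x, a * ‖x‖ ≤ p x) {t : ℝ} (ht : 0 ≤ t) (f : E →L[ℝ] ℝ) :
    dn p (t • f) = t * dn p f := by
  apply le_antisymm
  · refine dn_le fun x hx => ?_
    rw [ContinuousLinearMap.smul_apply, smul_eq_mul]
    exact mul_le_mul_of_nonneg_left (le_dn_of_lt ha h f hx) ht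
  · rcases ht.eq_or_lt with rfl | ht
    · rw [zero_mul]; exact dn_nonneg ha h _
    · rw [← le_div_iff₀' ht]
      refine dn_le fun x hx => ?_
      rw [le_div_iff₀' ht]
      have := le_dn_of_lt ha h (t • f) hx
      simpa using this

theorem dn_le_norm (ha : 0 < a) (h : ∀ x, a * ‖x‖ ≤ p x) (f : E →L[ℝ] ℝ) :
    dn p f ≤ 1 / a * ‖f‖ := by
  refine dn_le fun x hx => ?_
  refine (le_abs_self _).trans ((f.le_opNorm x).trans ?_)
  rw [mul_comm]
  exact mul_le_mul_of_nonneg_right (norm_le_of_lt_one ha h (le_of_lt hx)) (norm_nonneg _)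

theorem dn_sub_le (ha : 0 < a) (h : ∀ x, a * ‖x‖ ≤ p x) (f g : E →L[ℝ] ℝ) :
    |dn p f - dn p g| ≤ 1 / a * ‖f - g‖ := by
  rw [abs_le]
  constructor
  · have h1 := dn_add_le ha h f (g - f)
    have h2 := dn_le_norm ha h (g - f)
    rw [add_sub_cancel] at h1
    rw [norm_sub_rev] at h2
    linarith
  · have h1 := dn_add_le ha h g (f - g)
    have h2 := dn_le_norm ha h (f - g)
    rw [add_sub_cancel] at h1
    linarith

theorem dn_convex (ha : 0 < a) (h : ∀ x, a * ‖x‖ ≤ p x) (f g : E →L[ℝ] ℝ) {s t : ℝ}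
    (hs : 0 ≤ s) (ht : 0 ≤ t) : dn p (s • f + t • g) ≤ s * dn p f + t * dn p g := by
  refine (dn_add_le ha h _ _).trans_eq ?_
  rw [dn_smul ha h hs, dn_smul ha h ht]

end

end Pool.Agent.Companion
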