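import Pool.Agent.Work.MP_19858b_an.Dual

set_option autoImplicit false

namespace Pool.Agent.Companion

open Filter Topology Set

/-- Finitely supported weights. -/
abbrev V : Type := ℕ →₀ ℝ

/-- Total mass. -/
noncomputable def mass : V →ₗ[ℝ] ℝ := Finsupp.linearCombination ℝ (fun _ => (1 : ℝ))

theorem mass_apply (b : V) : mass b = ∑ j ∈ b.support, b j := by
  simp [mass, Finsupp.linearCombination_apply, Finsupp.sum]

/-- Sub-probability weights. -/
def Sub : Set V := {b | (∀ j, 0 ≤ b j) ∧ mass b ≤ 1}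

/-- Probability weights supported on `[m, ∞)`. -/
def Dl (m : ℕ) : Set V := {b | (∀ j, 0 ≤ b j) ∧ (∀ j < m, b j = 0) ∧ mass b = 1}

theorem Dl_sub (m : ℕ) : Dl m ⊆ Sub := fun _ hb => ⟨hb.1, hb.2.2.le⟩

theorem Dl_anti {m m' : ℕ} (h : m ≤ m') : Dl m' ⊆ Dl m :=
  fun _ hb => ⟨hb.1, fun j hj => hb.2.1 j (hj.trans_le h), hb.2.2⟩

theorem Dl_nonempty (m : ℕ) : (Dl m).Nonempty := by
  refine ⟨Finsupp.single m 1, fun j => ?_, fun j hj => ?_, ?_⟩
  · rw [Finsupp.single_apply]; split_ifs <;> norm_num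
  · rw [Finsupp.single_apply, if_neg (by omega)]
  · simp [mass]

theorem convex_Sub : Convex ℝ Sub := by
  rintro b hb b' hb' s t hs ht hst
  refine ⟨fun j => ?_, ?_⟩
  · have h1 := hb.1 j
    have h2 := hb'.1 j
    rw [Finsupp.add_apply, Finsupp.smul_apply, Finsupp.smul_apply, smul_eq_mul, smul_eq_mul]
    positivity
  · rw [map_add, map_smul, map_smul, smul_eq_mul, smul_eq_mul]
    have h1 := hb.2
    have h2 := hb'.2
    nlinarith

theorem convex_Dl (m : ℕ) : Convex ℝ (Dl m) := by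
  rintro b hb b' hb' s t hs ht hst
  refine ⟨fun j => ?_, fun j hj => ?_, ?_⟩
  · have h1 := hb.1 j
    have h2 := hb'.1 j
    rw [Finsupp.add_apply, Finsupp.smul_apply, Finsupp.smul_apply, smul_eq_mul, smul_eq_mul]
    positivity
  · rw [Finsupp.add_apply, Finsupp.smul_apply, Finsupp.smul_apply, hb.2.1 j hj, hb'.2.1 j hj]
    simp
  · rw [map_add, map_smul, map_smul, smul_eq_mul, smul_eq_mul, hb.2.2, hb'.2.2]
    linarith

/-- Perturbation sizes. -/
noncomputable def tt (i : ℕ) : ℝ := (1 / 2) ^ (i + 1)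

theorem tt_pos (i : ℕ) : 0 < tt i := by unfold tt; positivity

theorem tt_le (i : ℕ) : tt i ≤ 1 / 2 := by
  unfold tt
  calc (1 / 2 : ℝ) ^ (i + 1) ≤ (1 / 2) ^ 1 :=
        pow_le_pow_of_le_one (by norm_num) (by norm_num) (by omega)
    _ = 1 / 2 := by norm_num

theorem tt_tendsto : Tendsto tt atTop (𝓝 0) :=
  (tendsto_pow_atTop_nhds_zero_of_lt_one (r := (1 / 2 : ℝ)) (by norm_num) (by norm_num)).comp
    (tendsto_add_atTop_nat 1)

variable {E : Type} [NormedAddCommGroup E] [NormedSpace ℝ E] (ev : ℕ → E →L[ℝ] ℝ)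

/-- Averages of far away coordinate functionals. -/
noncomputable def GG (i : ℕ) : V →ₗ[ℝ] (E →L[ℝ] ℝ) :=
  Finsupp.linearCombination ℝ (fun j => ev (Nat.pair i j))

theorem GG_apply (i : ℕ) (b : V) (x : E) :
    GG ev i b x = ∑ j ∈ b.support, b j * ev (Nat.pair i j) x := by
  simp [GG, Finsupp.linearCombination_apply, Finsupp.sum]

/-- The finite linear combinations of the perturbed coordinate functionals. -/
noncomputable def HH (n : ℕ) (c : ℕ → ℝ) (b : V) : E →L[ℝ] ℝ :=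
  ∑ i ∈ Finset.range n, c i • (ev i + tt i • GG ev i b)

/-- The linear part of `HH`. -/
noncomputable def LL (n : ℕ) (c : ℕ → ℝ) (b : V) : E →L[ℝ] ℝ :=
  ∑ i ∈ Finset.range n, (c i * tt i) • GG ev i b

variable {ev}

theorem GG_bound {η : ℝ} {m : ℕ} {x : E} (hx : ∀ k, m ≤ k → |ev k x| ≤ η) (i : ℕ) {b : V}
    (hb0 : ∀ j, 0 ≤ b j) (hbm : ∀ j < m, b j = 0) : |GG ev i b x| ≤ η * mass b := by
  rw [GG_apply, mass_apply, Finset.mul_sum]
  refine (Finset.abs_sum_le_sum_abs _ _).trans (Finset.sum_le_sum fun j _ => ?_)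
  rw [abs_mul, abs_of_nonneg (hb0 j), mul_comm]
  rcases lt_or_ge j m with hj | hj
  · rw [hbm j hj]; simp
  · exact mul_le_mul_of_nonneg_right (hx _ (hj.trans (Nat.right_le_pair i j))) (hb0 j)

theorem GG_norm_le (hE : IsC0 E ev) (i : ℕ) {b : V} (hb0 : ∀ j, 0 ≤ b j) :
    ‖GG ev i b‖ ≤ mass b := by
  have hm : 0 ≤ mass b := by
    rw [mass_apply]; exact Finset.sum_nonneg fun j _ => hb0 j
  refine ContinuousLinearMap.opNorm_le_bound _ hm fun x => ?_
  rw [Real.norm_eq_abs, mul_comm]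
  exact GG_bound (m := 0) (fun k _ => hE.abs_le k x) i hb0 (by simp)

theorem ev_norm_le (hE : IsC0 E ev) (k : ℕ) : ‖ev k‖ ≤ 1 :=
  ContinuousLinearMap.opNorm_le_bound _ zero_le_one fun x => by
    rw [Real.norm_eq_abs, one_mul]; exact hE.abs_le k x

theorem hh_norm_le (hE : IsC0 E ev) (i : ℕ) {b : V} (hb : b ∈ Sub) :
    ‖ev i + tt i • GG ev i b‖ ≤ 2 := by
  refine (norm_add_le _ _).trans ?_
  rw [norm_smul, Real.norm_of_nonneg (tt_pos i).le]
  have h1 := ev_norm_le hE i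
  have h2 := (GG_norm_le hE i hb.1).trans hb.2
  have h3 := tt_le i
  have h4 := tt_pos i
  have h5 := norm_nonneg (GG ev i b)
  nlinarith

theorem HH_sub_norm_le (hE : IsC0 E ev) (n : ℕ) (c c' : ℕ → ℝ) {b : V} (hb : b ∈ Sub) :
    ‖HH ev n c b - HH ev n c' b‖ ≤ 2 * ∑ i ∈ Finset.range n, |c i - c' i| := by
  unfold HH
  rw [← Finset.sum_sub_distrib, Finset.mul_sum]
  refine (norm_sum_le _ _).trans (Finset.sum_le_sum fun i _ => ?_)
  have e : c i • (ev i + tt i • GG ev i b) - c' i • (ev i + tt i • GG ev i b)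
      = (c i - c' i) • (ev i + tt i • GG ev i b) := by module
  rw [e, norm_smul, Real.norm_eq_abs, mul_comm]
  exact mul_le_mul_of_nonneg_right (hh_norm_le hE i hb) (abs_nonneg _)

theorem HH_norm_le (hE : IsC0 E ev) (n : ℕ) (c : ℕ → ℝ) {b : V} (hb : b ∈ Sub) :
    ‖HH ev n c b‖ ≤ 2 * ∑ i ∈ Finset.range n, |c i| := by
  have := HH_sub_norm_le hE n c 0 hb
  simpa [HH] using this

theorem HH_affine (n : ℕ) (c : ℕ → ℝ) (b b' : V) {s t : ℝ} (hst : s + t = 1) :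
    HH ev n c (s • b + t • b') = s • HH ev n c b + t • HH ev n c b' := by
  unfold HH
  rw [Finset.smul_sum, Finset.smul_sum, ← Finset.sum_add_distrib]
  refine Finset.sum_congr rfl fun i _ => ?_
  rw [map_add, map_smul, map_smul]
  have hs : s = 1 - t := by linarith
  subst hs
  module

theorem HH_add (n : ℕ) (c : ℕ → ℝ) (b b' : V) (s : ℝ) :
    HH ev n c (b + s • b') = HH ev n c b + s • LL ev n c b' := by
  unfold HH LL
  rw [Finset.smul_sum, ← Finset.sum_add_distrib]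
  refine Finset.sum_congr rfl fun i _ => ?_
  rw [map_add, map_smul]
  module

theorem LL_bound {η : ℝ} {m : ℕ} {x : E} (hx : ∀ k, m ≤ k → |ev k x| ≤ η) (n : ℕ) (c : ℕ → ℝ)
    {b : V} (hb : b ∈ Dl m) :
    |LL ev n c b x| ≤ (∑ i ∈ Finset.range n, |c i| * tt i) * η := by
  unfold LL
  rw [_root_.sum_apply, Finset.sum_mul]
  refine (Finset.abs_sum_le_sum_abs _ _).trans (Finset.sum_le_sum fun i _ => ?_)
  rw [_root_.smul_apply, smul_eq_mul, abs_mul, abs_mul, abs_of_pos (tt_pos i)]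
  have h1 := GG_bound hx i hb.1 hb.2.1
  rw [hb.2.2, mul_one] at h1
  exact mul_le_mul_of_nonneg_left h1 (mul_nonneg (abs_nonneg _) (tt_pos i).le)

theorem LL_norm_le (hE : IsC0 E ev) (n : ℕ) (c : ℕ → ℝ) {m : ℕ}
    {b : V} (hb : b ∈ Dl m) :
    ‖LL ev n c b‖ ≤ ∑ i ∈ Finset.range n, |c i| * tt i := by
  refine ContinuousLinearMap.opNorm_le_bound _ (Finset.sum_nonneg fun i _ =>
    mul_nonneg (abs_nonneg _) (tt_pos i).le) fun x => ?_
  exact LL_bound (m := 0) (fun k _ => hE.abs_le k x) n c (Dl_anti (Nat.zero_le m) hb)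

/-- The functions `Ψ`. -/
noncomputable def Ps (ev : ℕ → E →L[ℝ] ℝ) (p : Seminorm ℝ E) (n : ℕ) (c : ℕ → ℝ) (b : V) : ℝ :=
  dn p (HH ev n c b)

section

variable {p : Seminorm ℝ E} {a : ℝ}

theorem Ps_nonneg (ha : 0 < a) (h : ∀ x, a * ‖x‖ ≤ p x) (n : ℕ) (c : ℕ → ℝ) (b : V) :
    0 ≤ Ps ev p n c b := dn_nonneg ha h _

theorem Ps_le (hE : IsC0 E ev) (ha : 0 < a) (h : ∀ x, a * ‖x‖ ≤ p x) (n : ℕ) (c : ℕ → ℝ) {b : V}
    (hb : b ∈ Sub) : Ps ev p n c b ≤ 1 / a * (2 * ∑ i ∈ Finset.range n, |c i|) :=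
  (dn_le_norm ha h _).trans (mul_le_mul_of_nonneg_left (HH_norm_le hE n c hb) (by positivity))

theorem Ps_sub_le (hE : IsC0 E ev) (ha : 0 < a) (h : ∀ x, a * ‖x‖ ≤ p x) (n : ℕ) (c c' : ℕ → ℝ)
    {b : V} (hb : b ∈ Sub) :
    |Ps ev p n c b - Ps ev p n c' b| ≤ 1 / a * (2 * ∑ i ∈ Finset.range n, |c i - c' i|) :=
  (dn_sub_le ha h _ _).trans (mul_le_mul_of_nonneg_left (HH_sub_norm_le hE n c c' hb)
    (by positivity))

theorem Ps_convex (ha : 0 < a) (h : ∀ x, a * ‖x‖ ≤ p x) (n : ℕ) (c : ℕ → ℝ) (b b' : V) {s t : ℝ}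
    (hs : 0 ≤ s) (ht : 0 ≤ t) (hst : s + t = 1) :
    Ps ev p n c (s • b + t • b') ≤ s * Ps ev p n c b + t * Ps ev p n c b' := by
  unfold Ps
  rw [HH_affine n c b b' hst]
  exact dn_convex ha h _ _ hs ht

end

end Pool.Agent.Companion
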