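import Pool.Agent.Work.MP_19858b_an.Growth

set_option autoImplicit false

namespace Pool.Agent.Companion

open Filter Topology Set

/-- A bounded midpoint convex functional which is strictly convex with respect to each of countably
many given nonnegative midpoint convex functions. -/
theorem exists_strict_functional {ι : Type} [Countable ι] {W : Type} [AddCommGroup W] [Module ℝ W]
    (S : Set W) (hS : Convex ℝ S) (Ψ : ι → W → ℝ) (M : ι → ℝ)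
    (h0 : ∀ i, ∀ b ∈ S, 0 ≤ Ψ i b) (hM : ∀ i, ∀ b ∈ S, Ψ i b ≤ M i)
    (hconv : ∀ i, ∀ b ∈ S, ∀ b' ∈ S,
      Ψ i ((1 / 2 : ℝ) • b + (1 / 2 : ℝ) • b') ≤ 1 / 2 * Ψ i b + 1 / 2 * Ψ i b') :
    ∃ Φ : W → ℝ, (∀ b ∈ S, 0 ≤ Φ b ∧ Φ b ≤ 1) ∧
      (∀ b ∈ S, ∀ b' ∈ S, Φ ((1 / 2 : ℝ) • b + (1 / 2 : ℝ) • b') ≤ 1 / 2 * Φ b + 1 / 2 * Φ b') ∧
      ∀ i, ∀ δ : ℝ, 0 < δ → ∃ ε : ℝ, 0 < ε ∧ ∀ b ∈ S, ∀ b' ∈ S,
        1 / 2 * Φ b + 1 / 2 * Φ b' - Φ ((1 / 2 : ℝ) • b + (1 / 2 : ℝ) • b') ≤ ε →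
          |Ψ i b - Ψ i b'| ≤ δ := by
  classical
  have := Encodable.ofCountable ι
  obtain ⟨w', hw'pos, C, hC, hC1⟩ := posSumOfEncodable (ε := 1) one_pos ι
  set w : ι → ℝ := fun i => w' i / (M i ^ 2 + 1) with hw
  have hwpos : ∀ i, 0 < w i := fun i => div_pos (hw'pos i) (by positivity)
  have hterm : ∀ b ∈ S, ∀ i, w i * Ψ i b ^ 2 ≤ w' i := by
    intro b hb i
    have h1 : Ψ i b ^ 2 ≤ M i ^ 2 + 1 := by
      have := h0 i b hb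
      have := hM i b hb
      nlinarith
    calc w i * Ψ i b ^ 2 ≤ w i * (M i ^ 2 + 1) := mul_le_mul_of_nonneg_left h1 (hwpos i).le
      _ = w' i := by rw [hw]; field_simp
  have hterm0 : ∀ b : W, ∀ i, 0 ≤ w i * Ψ i b ^ 2 := fun b i =>
    mul_nonneg (hwpos i).le (sq_nonneg _)
  have hsum : ∀ b ∈ S, Summable fun i => w i * Ψ i b ^ 2 := fun b hb =>
    Summable.of_nonneg_of_le (hterm0 b) (hterm b hb) hC.summable
  have hmid : ∀ b ∈ S, ∀ b' ∈ S, (1 / 2 : ℝ) • b + (1 / 2 : ℝ) • b' ∈ S := fun b hb b' hb' =>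
    hS hb hb' (by norm_num) (by norm_num) (by norm_num)
  set Φ : W → ℝ := fun b => ∑' i, w i * Ψ i b ^ 2 with hΦ
  -- gap terms
  have hgap : ∀ b ∈ S, ∀ b' ∈ S, ∀ i, w i * ((Ψ i b - Ψ i b') ^ 2 / 4) ≤
      1 / 2 * (w i * Ψ i b ^ 2) + 1 / 2 * (w i * Ψ i b' ^ 2)
        - w i * Ψ i ((1 / 2 : ℝ) • b + (1 / 2 : ℝ) • b') ^ 2 := by
    intro b hb b' hb' i
    have h1 := hconv i b hb b' hb'
    have h2 := h0 i _ (hmid b hb b' hb')
    have h3 : Ψ i ((1 / 2 : ℝ) • b + (1 / 2 : ℝ) • b') ^ 2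
        ≤ (1 / 2 * Ψ i b + 1 / 2 * Ψ i b') ^ 2 := pow_le_pow_left₀ h2 h1 2
    have h4 := mul_le_mul_of_nonneg_left h3 (hwpos i).le
    have h5 : 1 / 2 * (w i * Ψ i b ^ 2) + 1 / 2 * (w i * Ψ i b' ^ 2)
        - w i * (1 / 2 * Ψ i b + 1 / 2 * Ψ i b') ^ 2 = w i * ((Ψ i b - Ψ i b') ^ 2 / 4) := by ring
    linarith
  have hgapsum : ∀ b ∈ S, ∀ b' ∈ S,
      HasSum (fun i => 1 / 2 * (w i * Ψ i b ^ 2) + 1 / 2 * (w i * Ψ i b' ^ 2)
        - w i * Ψ i ((1 / 2 : ℝ) • b + (1 / 2 : ℝ) • b') ^ 2)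
        (1 / 2 * Φ b + 1 / 2 * Φ b' - Φ ((1 / 2 : ℝ) • b + (1 / 2 : ℝ) • b')) := by
    intro b hb b' hb'
    exact (((hsum b hb).hasSum.mul_left _).add ((hsum b' hb').hasSum.mul_left _)).sub
      (hsum _ (hmid b hb b' hb')).hasSum
  refine ⟨Φ, fun b hb => ⟨tsum_nonneg (hterm0 b), ?_⟩, fun b hb b' hb' => ?_, fun i δ hδ => ?_⟩
  · calc Φ b ≤ ∑' i, w' i := (hsum b hb).tsum_le_tsum (hterm b hb) hC.summable
      _ = C := hC.tsum_eq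
      _ ≤ 1 := hC1
  · have h1 := (hgapsum b hb b' hb').nonneg (fun i =>
      (mul_nonneg (hwpos i).le (by positivity)).trans (hgap b hb b' hb' i))
    linarith
  · refine ⟨w i * (δ ^ 2 / 4), mul_pos (hwpos i) (by positivity), fun b hb b' hb' hg => ?_⟩
    have h1 : w i * ((Ψ i b - Ψ i b') ^ 2 / 4) ≤
        1 / 2 * Φ b + 1 / 2 * Φ b' - Φ ((1 / 2 : ℝ) • b + (1 / 2 : ℝ) • b') := by
      refine (hgap b hb b' hb' i).trans ?_
      refine le_hasSum (hgapsum b hb b' hb') i fun j _ => ?_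
      exact (mul_nonneg (hwpos j).le (by positivity)).trans (hgap b hb b' hb' j)
    have h2 := le_of_mul_le_mul_left (h1.trans hg) (hwpos i)
    have h3 : (Ψ i b - Ψ i b') ^ 2 ≤ δ ^ 2 := by linarith
    exact abs_le_of_sq_le_sq h3 hδ.le

variable {E : Type} [NormedAddCommGroup E] [NormedSpace ℝ E] {ev : ℕ → E →L[ℝ] ℝ}

/-- The functional controlling all the functions `Ps` simultaneously. -/
theorem exists_functional (hE : IsC0 E ev) {p : Seminorm ℝ E} {a : ℝ} (ha : 0 < a)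
    (h : ∀ x, a * ‖x‖ ≤ p x) :
    ∃ Φ : V → ℝ, (∀ b ∈ Sub, 0 ≤ Φ b ∧ Φ b ≤ 1) ∧
      (∀ b ∈ Sub, ∀ b' ∈ Sub,
        Φ ((1 / 2 : ℝ) • b + (1 / 2 : ℝ) • b') ≤ 1 / 2 * Φ b + 1 / 2 * Φ b') ∧
      ∀ n : ℕ, ∀ δ : ℝ, 0 < δ → ∃ ε : ℝ, 0 < ε ∧ ∀ b ∈ Sub, ∀ b' ∈ Sub,
        1 / 2 * Φ b + 1 / 2 * Φ b' - Φ ((1 / 2 : ℝ) • b + (1 / 2 : ℝ) • b') ≤ ε →
          ∀ c ∈ Bal n, |Ps ev p n c b - Ps ev p n c b'| ≤ δ := by
  set v : ℕ → (ℕ → ℝ) := TopologicalSpace.denseSeq (ℕ → ℝ) with hv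
  obtain ⟨Φ, h1, h2, h3⟩ := exists_strict_functional (ι := ℕ × ℕ) Sub convex_Sub
    (fun i b => Ps ev p i.1 (v i.2) b)
    (fun i => 1 / a * (2 * ∑ k ∈ Finset.range i.1, |v i.2 k|))
    (fun i b _ => Ps_nonneg ha h _ _ _) (fun i b hb => Ps_le hE ha h _ _ hb)
    (fun i b _ b' _ => Ps_convex ha h _ _ b b' (by norm_num) (by norm_num) (by norm_num))
  refine ⟨Φ, h1, h2, fun n δ hδ => ?_⟩
  refine (isCompact_Bal n).induction_on (p := fun s => ∃ ε : ℝ, 0 < ε ∧ ∀ b ∈ Sub, ∀ b' ∈ Sub,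
        1 / 2 * Φ b + 1 / 2 * Φ b' - Φ ((1 / 2 : ℝ) • b + (1 / 2 : ℝ) • b') ≤ ε →
          ∀ c ∈ s, |Ps ev p n c b - Ps ev p n c b'| ≤ δ) ?_ ?_ ?_ ?_
  · exact ⟨1, one_pos, fun b _ b' _ _ c hc => by simp at hc⟩
  · rintro s t hst ⟨ε, hε, H⟩
    exact ⟨ε, hε, fun b hb b' hb' hg c hc => H b hb b' hb' hg c (hst hc)⟩
  · rintro s t ⟨ε, hε, H⟩ ⟨ε', hε', H'⟩
    refine ⟨min ε ε', lt_min hε hε', fun b hb b' hb' hg c hc => ?_⟩
    rcases hc with hc | hc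
    · exact H b hb b' hb' (hg.trans (min_le_left _ _)) c hc
    · exact H' b hb b' hb' (hg.trans (min_le_right _ _)) c hc
  · intro c _
    have hη : 0 < δ * a / 16 := by positivity
    obtain ⟨_, hc1, j, rfl⟩ := mem_closure_iff_nhds.1
      ((TopologicalSpace.denseRange_denseSeq (ℕ → ℝ)) c) _ (nhds_sum n c hη)
    have hj : ∑ i ∈ Finset.range n, |c i - v j i| < δ * a / 16 := hc1
    obtain ⟨ε, hε, H⟩ := h3 (n, j) (δ / 2) (by positivity)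
    refine ⟨_, mem_nhdsWithin_of_mem_nhds (nhds_sum n c hη), ε, hε, fun b hb b' hb' hg c' hc' => ?_⟩
    have hc'' : ∑ i ∈ Finset.range n, |c i - c' i| < δ * a / 16 := hc'
    have h4 : ∑ i ∈ Finset.range n, |c' i - v j i| ≤ δ * a / 8 := by
      have : ∑ i ∈ Finset.range n, |c' i - v j i| ≤
          ∑ i ∈ Finset.range n, (|c i - c' i| + |c i - v j i|) := by
        refine Finset.sum_le_sum fun i _ => ?_
        have := abs_add_le (c' i - c i) (c i - v j i)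
        rw [abs_sub_comm (c' i) (c i)] at this
        simpa using this
      rw [Finset.sum_add_distrib] at this
      linarith
    have h5 : 1 / a * (2 * ∑ i ∈ Finset.range n, |c' i - v j i|) ≤ δ / 4 := by
      rw [div_mul_eq_mul_div, div_le_iff₀ ha]
      linarith
    have h6 := (abs_le.1 ((Ps_sub_le hE ha h n c' (v j) hb).trans h5))
    have h7 := (abs_le.1 ((Ps_sub_le hE ha h n c' (v j) hb').trans h5))
    have h8 := abs_le.1 (H b hb b' hb' hg)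
    rw [abs_le]
    simp only at h8
    constructor <;> linarith [h6.1, h6.2, h7.1, h7.2, h8.1, h8.2]

end Pool.Agent.Companion
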