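import Pool.Agent.Work.MP_19858b_an.Func
import Pool.Agent.Work.MP_19858b_an.Aus

set_option autoImplicit false

namespace Pool.Agent.Companion

open Filter Topology Set

variable {E : Type} [NormedAddCommGroup E] [NormedSpace ℝ E] {ev : ℕ → E →L[ℝ] ℝ}

/-- Finitely supported functionals. -/
def FS (ev : ℕ → E →L[ℝ] ℝ) : Submodule ℝ (E →L[ℝ] ℝ) where
  carrier := {f | ∃ m : ℕ, ∀ z : E, (∀ k < m, ev k z = 0) → f z = 0}
  zero_mem' := ⟨0, fun z _ => rfl⟩
  add_mem' := by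
    rintro f g ⟨m, hm⟩ ⟨m', hm'⟩
    refine ⟨max m m', fun z hz => ?_⟩
    rw [_root_.add_apply, hm z fun k hk => hz k (lt_max_of_lt_left hk),
      hm' z fun k hk => hz k (lt_max_of_lt_right hk), add_zero]
  smul_mem' := by
    rintro t f ⟨m, hm⟩
    refine ⟨m, fun z hz => ?_⟩
    rw [_root_.smul_apply, hm z hz, smul_zero]

theorem ev_mem_FS (k : ℕ) : ev k ∈ FS ev := ⟨k + 1, fun z hz => hz k (Nat.lt_succ_self k)⟩

theorem GG_mem_FS (i : ℕ) (b : V) : GG ev i b ∈ FS ev := by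
  unfold GG
  rw [Finsupp.linearCombination_apply, Finsupp.sum]
  exact Submodule.sum_mem _ fun j _ => Submodule.smul_mem _ _ (ev_mem_FS _)

theorem HH_mem_FS (n : ℕ) (c : ℕ → ℝ) (b : V) : HH ev n c b ∈ FS ev :=
  Submodule.sum_mem _ fun i _ => Submodule.smul_mem _ _
    (Submodule.add_mem _ (ev_mem_FS _) (Submodule.smul_mem _ _ (GG_mem_FS _ _)))

/-- The test vector. -/
theorem exists_test (hE : IsC0 E ev) (n m : ℕ) (c : ℕ → ℝ) {b : V} (hb : b ∈ Dl m) :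
    ∃ z : E, ‖z‖ ≤ 1 ∧ (∀ k < m, ev k z = 0) ∧
      LL ev n c b z = ∑ i ∈ Finset.range n, |c i| * tt i := by
  classical
  let f : ℕ → ℝ := fun k => if (Nat.unpair k).1 < n ∧ (Nat.unpair k).2 ∈ b.support then
    (SignType.sign (c (Nat.unpair k).1) : ℝ) else 0
  have hfin : {k : ℕ | (Nat.unpair k).1 < n ∧ (Nat.unpair k).2 ∈ b.support}.Finite := by
    refine ((Finset.range n ×ˢ b.support).image fun q => Nat.pair q.1 q.2).finite_toSet.subset ?_
    rintro k ⟨h1, h2⟩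
    rw [Finset.mem_coe, Finset.mem_image]
    exact ⟨⟨(Nat.unpair k).1, (Nat.unpair k).2⟩, by
      rw [Finset.mem_product]; exact ⟨Finset.mem_range.2 h1, h2⟩, Nat.pair_unpair k⟩
  have hf : Tendsto f atTop (𝓝 0) := by
    refine tendsto_const_nhds.congr' ?_
    have := hfin.eventually_cofinite_notMem
    rw [Nat.cofinite_eq_atTop] at this
    filter_upwards [this] with k hk
    have : ¬ ((Nat.unpair k).1 < n ∧ (Nat.unpair k).2 ∈ b.support) := hk
    simp only [f]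
    rw [if_neg this]
  obtain ⟨z, hz⟩ := hE.exists_mk f hf
  refine ⟨z, hE.norm_le z 1 zero_le_one fun k => ?_, fun k hk => ?_, ?_⟩
  · rw [hz k]
    simp only [f]
    split_ifs
    · rcases lt_trichotomy (c (Nat.unpair k).1) 0 with h | h | h <;> simp [h]
    · simp
  · rw [hz k]
    simp only [f]
    rw [if_neg]
    rintro ⟨_, h2⟩
    have h3 : b (Nat.unpair k).2 ≠ 0 := by simpa using h2
    exact h3 (hb.2.1 _ ((Nat.unpair_right_le k).trans_lt hk))
  · unfold LL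
    rw [_root_.sum_apply]
    refine Finset.sum_congr rfl fun i hi => ?_
    rw [_root_.smul_apply, smul_eq_mul, GG_apply]
    have : ∀ j ∈ b.support, b j * ev (Nat.pair i j) z = b j * (SignType.sign (c i) : ℝ) := by
      intro j hj
      rw [hz]
      simp only [f, Nat.unpair_pair]
      rw [if_pos ⟨Finset.mem_range.1 hi, hj⟩]
    rw [Finset.sum_congr rfl this, ← Finset.sum_mul, ← mass_apply, hb.2.2, one_mul]
    have h2 : c i * (SignType.sign (c i) : ℝ) = |c i| := by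
      rw [mul_comm]; exact sign_mul_self _
    calc c i * tt i * (SignType.sign (c i) : ℝ) = c i * (SignType.sign (c i) : ℝ) * tt i := by ring
      _ = |c i| * tt i := by rw [h2]

/-- Pointwise growth. -/
theorem growth_pt (hE : IsC0 E ev) {p : Seminorm ℝ E} {a : ℝ} (ha : 0 < a)
    (h : ∀ x, a * ‖x‖ ≤ p x) (haus : ∀ θ : ℝ, 0 < θ → Aus ev p θ) (n : ℕ) (c : ℕ → ℝ)
    (hc : ∃ i < n, c i ≠ 0) (b0 : V) {L : ℝ} (hL : 0 < L) :
    ∃ κ : ℝ, 0 < κ ∧ ∃ m : ℕ, ∀ b ∈ Dl m, Ps ev p n c b0 + κ ≤ Ps ev p n c (b0 + L • b) := by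
  set N : ℝ := ∑ i ∈ Finset.range n, |c i| * tt i with hN
  have hN0 : 0 < N := by
    obtain ⟨i, hi, hci⟩ := hc
    refine Finset.sum_pos' (fun j _ => mul_nonneg (abs_nonneg _) (tt_pos j).le)
      ⟨i, Finset.mem_range.2 hi, mul_pos (abs_pos.2 hci) (tt_pos i)⟩
  set S0 : ℝ := Ps ev p n c b0 with hS0
  have hS0n : 0 ≤ S0 := Ps_nonneg ha h _ _ _
  set θ : ℝ := L * N / (4 * (S0 + 1)) with hθ
  have hθ0 : 0 < θ := by positivity
  obtain ⟨τ, hτ, H⟩ := haus θ hθ0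
  obtain ⟨x, hx1, hx2⟩ := exists_lt_dn (p := p) (HH ev n c b0)
    (show 0 < τ * L * N / 8 by positivity)
  obtain ⟨n1, hn1⟩ := H x hx1
  obtain ⟨m2, hm2⟩ := HH_mem_FS (ev := ev) n c b0
  obtain ⟨m3, hm3⟩ : ∃ m3 : ℕ, ∀ k, m3 ≤ k → |ev k x| ≤ τ / 8 := by
    have := hE.tends x
    rw [Metric.tendsto_atTop] at this
    obtain ⟨M, hM⟩ := this (τ / 8) (by positivity)
    exact ⟨M, fun k hk => by simpa using (hM k hk).le⟩
  set ρ : ℝ := 1 + θ * τ with hρ
  have hρ0 : 0 < ρ := by positivity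
  refine ⟨τ * L * N / (2 * ρ), by positivity, max n1 (max m2 m3), fun b hb => ?_⟩
  obtain ⟨z, hz1, hz2, hz3⟩ := exists_test hE n _ c hb
  have e1 : p (x + τ • z) ≤ ρ := hn1 z (fun k hk => hz2 k (lt_max_of_lt_left hk)) hz1
  have e2 : HH ev n c b0 z = 0 :=
    hm2 z fun k hk => hz2 k (lt_max_of_lt_right (lt_max_of_lt_left hk))
  have e3 : |LL ev n c b x| ≤ N * (τ / 8) :=
    LL_bound (m := max n1 (max m2 m3)) (fun k hk => hm3 k
      (((le_max_right _ _).trans (le_max_right _ _)).trans hk)) n c hb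
  have e4 : HH ev n c (b0 + L • b) (x + τ • z) ≤ ρ * Ps ev p n c (b0 + L • b) := by
    have h1 : p (ρ⁻¹ • (x + τ • z)) ≤ 1 := by
      rw [map_smul_eq_mul, Real.norm_of_nonneg (inv_nonneg.2 hρ0.le), inv_mul_le_iff₀ hρ0]
      simpa using e1
    have h2 := le_dn ha h (HH ev n c (b0 + L • b)) h1
    rw [map_smul, smul_eq_mul, inv_mul_le_iff₀ hρ0] at h2
    exact h2
  have e5 : HH ev n c (b0 + L • b) (x + τ • z)
      = HH ev n c b0 x + L * LL ev n c b x + τ * L * N := by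
    rw [HH_add, _root_.add_apply, _root_.smul_apply, smul_eq_mul, map_add, map_smul, map_add,
      map_smul, e2, hz3, smul_eq_mul, smul_eq_mul]
    ring
  have e6 : S0 - τ * L * N / 8 < HH ev n c b0 x := hx2
  have e7 : -(N * (τ / 8)) ≤ LL ev n c b x := (abs_le.1 e3).1
  have e8 : L * -(N * (τ / 8)) ≤ L * LL ev n c b x := mul_le_mul_of_nonneg_left e7 hL.le
  have e9 : θ * τ * S0 ≤ τ * L * N / 4 := by
    have h1 : θ * (4 * (S0 + 1)) = L * N := by
      rw [hθ]; field_simp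
    have h2 : θ * τ * S0 ≤ θ * τ * (S0 + 1) :=
      mul_le_mul_of_nonneg_left (by linarith) (by positivity)
    have h3 : θ * τ * (S0 + 1) = τ * (θ * (4 * (S0 + 1))) / 4 := by ring
    rw [h3, h1] at h2
    linarith
  have e10 : ρ * (S0 + τ * L * N / (2 * ρ)) = S0 + θ * τ * S0 + τ * L * N / 2 := by
    rw [mul_add]
    have : ρ * (τ * L * N / (2 * ρ)) = τ * L * N / 2 := by field_simp
    rw [this, hρ]; ring
  have e11 : ρ * (S0 + τ * L * N / (2 * ρ)) ≤ ρ * Ps ev p n c (b0 + L • b) := by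
    rw [e10]
    rw [e5] at e4
    nlinarith
  exact le_of_mul_le_mul_left e11 hρ0

/-- The compact sphere. -/
def Sph (n : ℕ) : Set (ℕ → ℝ) := {c | (∀ i, |c i| ≤ 1) ∧ (∀ i, n ≤ i → c i = 0) ∧ ∃ i < n, |c i| = 1}

/-- The compact ball. -/
def Bal (n : ℕ) : Set (ℕ → ℝ) := {c | (∀ i, |c i| ≤ 1) ∧ (∀ i, n ≤ i → c i = 0)}

theorem isCompact_Bal (n : ℕ) : IsCompact (Bal n) := by
  have h1 : IsCompact (Set.pi Set.univ fun _ : ℕ => Set.Icc (-1 : ℝ) 1) :=
    isCompact_univ_pi fun _ => isCompact_Icc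
  refine h1.of_isClosed_subset ?_ ?_
  · have : Bal n = (⋂ i, {c : ℕ → ℝ | |c i| ≤ 1}) ∩ ⋂ i, ⋂ (_ : n ≤ i), {c : ℕ → ℝ | c i = 0} := by
      ext c; simp [Bal]
    rw [this]
    refine (isClosed_iInter fun i => isClosed_le ((continuous_apply i).abs) continuous_const).inter
      (isClosed_iInter fun i => isClosed_iInter fun _ =>
        isClosed_eq (continuous_apply i) continuous_const)
  · intro c hc i _
    exact abs_le.1 (hc.1 i)

theorem isCompact_Sph (n : ℕ) : IsCompact (Sph n) := by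
  refine (isCompact_Bal n).of_isClosed_subset ?_ fun c hc => ⟨hc.1, hc.2.1⟩
  have : Sph n = (⋂ i, {c : ℕ → ℝ | |c i| ≤ 1}) ∩ (⋂ i, ⋂ (_ : n ≤ i), {c : ℕ → ℝ | c i = 0}) ∩
      ⋃ i ∈ Set.Iio n, {c : ℕ → ℝ | |c i| = 1} := by
    ext c; simp [Sph, and_assoc]
  rw [this]
  refine ((isClosed_iInter fun i => isClosed_le ((continuous_apply i).abs) continuous_const).inter
      (isClosed_iInter fun i => isClosed_iInter fun _ =>
        isClosed_eq (continuous_apply i) continuous_const)).inter ?_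
  exact (Set.finite_Iio n).isClosed_biUnion fun i _ =>
    isClosed_eq ((continuous_apply i).abs) continuous_const

theorem nhds_sum (n : ℕ) (c : ℕ → ℝ) {η : ℝ} (hη : 0 < η) :
    {c' : ℕ → ℝ | ∑ i ∈ Finset.range n, |c i - c' i| < η} ∈ 𝓝 c := by
  have hcont : Continuous fun c' : ℕ → ℝ => ∑ i ∈ Finset.range n, |c i - c' i| :=
    continuous_finsetSum _ fun i _ => (continuous_const.sub (continuous_apply i)).abs
  have hopen : IsOpen {c' : ℕ → ℝ | ∑ i ∈ Finset.range n, |c i - c' i| < η} :=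
    isOpen_lt hcont continuous_const
  exact hopen.mem_nhds (by simpa using hη)

theorem Sub_add {b0 b : V} {L : ℝ} {m : ℕ} (hb0 : ∀ j, 0 ≤ b0 j) (hL : 0 ≤ L)
    (hm : mass b0 + L ≤ 1) (hb : b ∈ Dl m) : b0 + L • b ∈ Sub := by
  refine ⟨fun j => ?_, ?_⟩
  · have h1 := hb0 j
    have h2 := hb.1 j
    rw [Finsupp.add_apply, Finsupp.smul_apply, smul_eq_mul]
    positivity
  · rw [map_add, map_smul, hb.2.2, smul_eq_mul, mul_one]
    exact hm

/-- Uniform growth on the sphere. -/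
theorem growth_unif (hE : IsC0 E ev) {p : Seminorm ℝ E} {a : ℝ} (ha : 0 < a)
    (h : ∀ x, a * ‖x‖ ≤ p x) (haus : ∀ θ : ℝ, 0 < θ → Aus ev p θ) (n : ℕ)
    {b0 : V} (hb0 : ∀ j, 0 ≤ b0 j) {L : ℝ} (hL : 0 < L) (hm : mass b0 + L ≤ 1) :
    ∃ κ : ℝ, 0 < κ ∧ ∃ m : ℕ, ∀ c ∈ Sph n, ∀ b ∈ Dl m,
      Ps ev p n c b0 + κ ≤ Ps ev p n c (b0 + L • b) := by
  refine (isCompact_Sph n).induction_on (p := fun s => ∃ κ : ℝ, 0 < κ ∧ ∃ m : ℕ, ∀ c ∈ s,
    ∀ b ∈ Dl m, Ps ev p n c b0 + κ ≤ Ps ev p n c (b0 + L • b)) ?_ ?_ ?_ ?_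
  · exact ⟨1, one_pos, 0, fun c hc => by simp at hc⟩
  · rintro s t hst ⟨κ, hκ, m, H⟩
    exact ⟨κ, hκ, m, fun c hc => H c (hst hc)⟩
  · rintro s t ⟨κ, hκ, m, H⟩ ⟨κ', hκ', m', H'⟩
    refine ⟨min κ κ', lt_min hκ hκ', max m m', fun c hc b hb => ?_⟩
    rcases hc with hc | hc
    · exact (add_le_add_right (min_le_left _ _) _).trans
        (H c hc b (Dl_anti (le_max_left _ _) hb))
    · exact (add_le_add_right (min_le_right _ _) _).trans
        (H' c hc b (Dl_anti (le_max_right _ _) hb))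
  · rintro c ⟨_, _, i, hi, hci⟩
    obtain ⟨κ, hκ, m, H⟩ := growth_pt hE ha h haus n c ⟨i, hi, by
      intro h0; rw [h0] at hci; simp at hci⟩ b0 hL
    have hη : 0 < κ * a / 8 := by positivity
    refine ⟨_, mem_nhdsWithin_of_mem_nhds (nhds_sum n c hη), κ / 2, by positivity, m,
      fun c' hc' b hb => ?_⟩
    have hc'' : ∑ i ∈ Finset.range n, |c i - c' i| < κ * a / 8 := hc'
    have h1 := Ps_sub_le hE ha h n c c' (Sub_add hb0 hL.le hm hb)
    have h2 := Ps_sub_le hE ha h n c c' (b := b0) ⟨hb0, by linarith⟩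
    have h3 : 1 / a * (2 * ∑ i ∈ Finset.range n, |c i - c' i|) ≤ κ / 4 := by
      rw [div_mul_eq_mul_div, div_le_iff₀ ha]
      linarith
    have h4 := H b hb
    have h5 := (abs_le.1 (h1.trans h3)).2
    have h6 := (abs_le.1 (h2.trans h3)).1
    linarith

end Pool.Agent.Companion
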