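import Pool.Agent.Work.MP_19858b_an.Functional

set_option autoImplicit false

namespace Pool.Agent.Companion

open Filter Topology Set

/-- One step of the minimisation. -/
theorem one_step (g : V → ℝ) (hg : ∀ b ∈ Dl 0, 0 ≤ g b ∧ g b ≤ 1) {ε : ℝ} (hε : 0 < ε) (M0 : ℕ) :
    ∃ m, M0 ≤ m ∧ ∃ b ∈ Dl m, (∀ b' ∈ Dl m, g b ≤ g b' + ε) ∧
      ∀ m', ∃ b'' ∈ Dl m', g b'' ≤ g b + ε := by
  set J : ℕ → ℝ := fun m => sInf (g '' Dl m) with hJ
  have hne : ∀ m, (g '' Dl m).Nonempty := fun m => (Dl_nonempty m).image g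
  have hg' : ∀ m, ∀ b ∈ Dl m, 0 ≤ g b ∧ g b ≤ 1 := fun m b hb => hg b (Dl_anti (Nat.zero_le m) hb)
  have hbdd : ∀ m, BddBelow (g '' Dl m) := fun m => by
    refine ⟨0, ?_⟩
    rintro _ ⟨b, hb, rfl⟩
    exact (hg' m b hb).1
  have hJle : ∀ m, ∀ b ∈ Dl m, J m ≤ g b := fun m b hb => csInf_le (hbdd m) ⟨b, hb, rfl⟩
  have hJmono : Monotone J := fun m m' hmm => csInf_le_csInf (hbdd m) (hne m')
    (image_mono (Dl_anti hmm))
  have hJ1 : ∀ m, J m ≤ 1 := fun m => by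
    obtain ⟨b, hb⟩ := Dl_nonempty m
    exact (hJle m b hb).trans (hg' m b hb).2
  have hbddJ : BddAbove (range J) := ⟨1, by rintro _ ⟨m, rfl⟩; exact hJ1 m⟩
  obtain ⟨m0, hm0⟩ := exists_lt_of_lt_ciSup (show (⨆ m, J m) - ε / 2 < ⨆ m, J m by linarith)
  set m := max M0 m0 with hm
  have h1 : (⨆ m, J m) - ε / 2 < J m := hm0.trans_le (hJmono (le_max_right _ _))
  obtain ⟨_, ⟨b, hb, rfl⟩, h2⟩ := exists_lt_of_csInf_lt (hne m) (show J m < J m + ε / 2 by linarith)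
  refine ⟨m, le_max_left _ _, b, hb, fun b' hb' => ?_, fun m' => ?_⟩
  · have := hJle m b' hb'
    linarith
  · have h3 : J (max m m') ≤ ⨆ m, J m := le_ciSup hbddJ _
    obtain ⟨_, ⟨b'', hb'', rfl⟩, h4⟩ := exists_lt_of_csInf_lt (hne (max m m'))
      (show J (max m m') < J (max m m') + ε / 2 by linarith)
    refine ⟨b'', Dl_anti (le_max_right _ _) hb'', ?_⟩
    have h5 := hJle m b hb
    linarith

variable {E : Type} [NormedAddCommGroup E] [NormedSpace ℝ E] {ev : ℕ → E →L[ℝ] ℝ}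

/-- The state of the construction. -/
structure St where
  /-- partial sum -/
  s : V
  /-- lower bound for the next index -/
  M : ℕ
  /-- minimum of the growth constants -/
  K : ℝ
  /-- last tolerance -/
  e : ℝ

/-- Invariant of the state. -/
def St.Inv (n : ℕ) (t : St) : Prop :=
  (∀ j, 0 ≤ t.s j) ∧ mass t.s = 1 - (1 / 2) ^ n ∧ 0 < t.K ∧ 0 < t.e ∧ n ≤ t.M

/-- Result of a stage. -/
structure Stage where
  /-- growth constant -/
  k : ℝ
  /-- index -/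
  m : ℕ
  /-- chosen weights -/
  b : V
  /-- tolerance -/
  e : ℝ

/-- Gap of midpoint convexity. -/
noncomputable def gap (Φ : V → ℝ) (x x' : V) : ℝ :=
  1 / 2 * Φ x + 1 / 2 * Φ x' - Φ ((1 / 2 : ℝ) • x + (1 / 2 : ℝ) • x')

/-- The relation between the state and the stage data. -/
structure Rel (ev : ℕ → E →L[ℝ] ℝ) (p : Seminorm ℝ E) (Φ : V → ℝ) (n : ℕ) (t : St) (g : Stage) :
    Prop where
  k_pos : 0 < g.k
  M_le : t.M ≤ g.m
  mem : g.b ∈ Dl g.m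
  grow : ∀ c ∈ Sph n, ∀ b' ∈ Dl g.m, Ps ev p n c t.s + g.k ≤ Ps ev p n c (t.s + (1 / 2 : ℝ) ^ n • b')
  e_pos : 0 < g.e
  e_le : g.e ≤ t.e / 2
  ctrl : ∀ x ∈ Sub, ∀ x' ∈ Sub, gap Φ x x' ≤ 2 * g.e → ∀ c ∈ Bal n,
    |Ps ev p n c x - Ps ev p n c x'| ≤ min t.K g.k * (1 / 4) ^ n / 4
  near : ∀ b' ∈ Dl g.m, Φ (t.s + (1 / 2 : ℝ) ^ n • g.b) ≤ Φ (t.s + (1 / 2 : ℝ) ^ n • b') + g.e
  cofinal : ∀ m', ∃ b'' ∈ Dl m', Φ (t.s + (1 / 2 : ℝ) ^ n • b'')
    ≤ Φ (t.s + (1 / 2 : ℝ) ^ n • g.b) + g.e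

/-- The next state. -/
noncomputable def next (n : ℕ) (t : St) (g : Stage) : St :=
  ⟨t.s + (1 / 2 : ℝ) ^ (n + 1) • g.b, g.m + 1, min t.K g.k, g.e⟩

theorem next_inv {p : Seminorm ℝ E} {Φ : V → ℝ} {n : ℕ} {t : St} {g : Stage} (ht : t.Inv n)
    (h : Rel ev p Φ n t g) : (next n t g).Inv (n + 1) := by
  obtain ⟨h1, h2, h3, h4, h5⟩ := ht
  refine ⟨fun j => ?_, ?_, lt_min h3 h.k_pos, h.e_pos, ?_⟩
  · have := h1 j
    have := h.mem.1 j
    simp only [next, Finsupp.add_apply, Finsupp.smul_apply, smul_eq_mul]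
    positivity
  · simp only [next, map_add, map_smul, smul_eq_mul, h2, h.mem.2.2]
    ring
  · have := h.M_le
    simp only [next]
    omega

theorem exists_stage (hE : IsC0 E ev) {p : Seminorm ℝ E} {a : ℝ} (ha : 0 < a)
    (h : ∀ x, a * ‖x‖ ≤ p x) (haus : ∀ θ : ℝ, 0 < θ → Aus ev p θ) {Φ : V → ℝ}
    (hΦ1 : ∀ b ∈ Sub, 0 ≤ Φ b ∧ Φ b ≤ 1)
    (hΦ3 : ∀ n : ℕ, ∀ δ : ℝ, 0 < δ → ∃ ε : ℝ, 0 < ε ∧ ∀ b ∈ Sub, ∀ b' ∈ Sub,
        gap Φ b b' ≤ ε → ∀ c ∈ Bal n, |Ps ev p n c b - Ps ev p n c b'| ≤ δ)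
    (n : ℕ) (t : St) (ht : t.Inv n) : ∃ g : Stage, Rel ev p Φ n t g := by
  obtain ⟨h1, h2, h3, h4, h5⟩ := ht
  have hL : (0 : ℝ) < (1 / 2) ^ n := by positivity
  have hm : mass t.s + (1 / 2) ^ n ≤ 1 := by rw [h2]; linarith
  obtain ⟨κ, hκ, m1, hm1⟩ := growth_unif hE ha h haus n h1 hL hm
  have hδ : 0 < min t.K κ * (1 / 4) ^ n / 4 := by
    have := lt_min h3 hκ
    positivity
  obtain ⟨ε, hε, H⟩ := hΦ3 n _ hδ
  set e : ℝ := min (ε / 2) (t.e / 2) with he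
  have he0 : 0 < e := lt_min (by positivity) (by positivity)
  obtain ⟨m, hm2, b, hb, hb1, hb2⟩ := one_step (fun b => Φ (t.s + (1 / 2 : ℝ) ^ n • b))
    (fun b hb => hΦ1 _ (Sub_add h1 hL.le hm hb)) he0 (max t.M m1)
  refine ⟨⟨κ, m, b, e⟩, ⟨hκ, (le_max_left _ _).trans hm2, hb, ?_, he0, min_le_right _ _, ?_, hb1,
    hb2⟩⟩
  · intro c hc b' hb'
    exact hm1 c hc b' (Dl_anti ((le_max_right _ _).trans hm2) hb')
  · intro x hx x' hx' hg c hc
    refine H x hx x' hx' (hg.trans ?_) c hc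
    have : e ≤ ε / 2 := min_le_left _ _
    show 2 * e ≤ ε
    linarith

/-- Changing the length of the sum. -/
theorem HH_eq {n d : ℕ} (hdn : d ≤ n) {c : ℕ → ℝ} (hc : ∀ i, d ≤ i → c i = 0) (b : V) :
    HH ev n c b = HH ev d c b := by
  unfold HH
  symm
  refine Finset.sum_subset (Finset.range_mono hdn) fun i _ hi => ?_
  rw [hc i (by simpa using hi), zero_smul]

theorem Ps_eq (p : Seminorm ℝ E) {n d : ℕ} (hdn : d ≤ n) {c : ℕ → ℝ} (hc : ∀ i, d ≤ i → c i = 0)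
    (b : V) : Ps ev p n c b = Ps ev p d c b := by
  unfold Ps
  rw [HH_eq hdn hc]

/-- The James type construction. -/
theorem james (hE : IsC0 E ev) {p : Seminorm ℝ E} {a : ℝ} (ha : 0 < a)
    (h : ∀ x, a * ‖x‖ ≤ p x) (haus : ∀ θ : ℝ, 0 < θ → Aus ev p θ) :
    ∃ (s b : ℕ → V) (m : ℕ → ℕ) (κ : ℕ → ℝ),
      s 0 = 0 ∧ (∀ n, s (n + 1) = s n + (1 / 2 : ℝ) ^ (n + 1) • b n) ∧
      (∀ n, b n ∈ Dl (m n)) ∧ (∀ n, n ≤ m n) ∧ (∀ n, m n ≤ m (n + 1)) ∧
      (∀ n, (∀ j, 0 ≤ s n j) ∧ mass (s n) = 1 - (1 / 2) ^ n) ∧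
      (∀ n j, ∃ b' ∈ Dl (m n), s (n + j) + (1 / 2 : ℝ) ^ (n + j) • b (n + j)
        = s n + (1 / 2 : ℝ) ^ n • b') ∧
      (∀ d, 0 < κ d) ∧
      ∀ d, ∀ c ∈ Sph d, ∀ n k, d ≤ n → n ≤ k →
        Ps ev p d c (s n) + (1 / 2) ^ n * (κ d / 2) ≤ Ps ev p d c (s k + (1 / 2 : ℝ) ^ k • b k) := by
  classical
  obtain ⟨Φ, hΦ1, hΦ2, hΦ3⟩ := exists_functional hE ha h
  have hst := exists_stage hE ha h haus hΦ1 hΦ3
  have hex : ∀ n : ℕ, ∀ t : {t : St // t.Inv n}, ∃ g : Stage, Rel ev p Φ n t.1 g :=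
    fun n t => hst n t.1 t.2
  choose G hG using hex
  let T : (n : ℕ) → {t : St // t.Inv n} := fun n => Nat.rec
    ⟨⟨0, 0, 1, 1⟩, ⟨fun j => le_refl _, by simp, one_pos, one_pos, le_refl _⟩⟩
    (fun n t => ⟨next n t.1 (G n t), next_inv t.2 (hG n t)⟩) n
  have hT0 : (T 0).1 = ⟨0, 0, 1, 1⟩ := rfl
  have hT : ∀ n, (T (n + 1)).1 = next n (T n).1 (G n (T n)) := fun n => rfl
  set g : ℕ → Stage := fun n => G n (T n) with hg
  have hR : ∀ n, Rel ev p Φ n (T n).1 (g n) := fun n => hG n (T n)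
  set s : ℕ → V := fun n => (T n).1.s with hs
  set b : ℕ → V := fun n => (g n).b with hb
  set m : ℕ → ℕ := fun n => (g n).m with hm
  set κ : ℕ → ℝ := fun n => (g n).k with hκ
  set K : ℕ → ℝ := fun n => (T n).1.K with hK
  set e : ℕ → ℝ := fun n => (g n).e with he
  have hs1 : ∀ n, s (n + 1) = s n + (1 / 2 : ℝ) ^ (n + 1) • b n := fun n => by
    simp only [hs, hT, next, hb, hg]
  have hK1 : ∀ n, K (n + 1) = min (K n) (κ n) := fun n => by
    simp only [hK, hT, next, hκ, hg]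
  have hm1 : ∀ n, n ≤ m n := fun n => (T n).2.2.2.2.2.trans (hR n).M_le
  have hm2 : ∀ n, m n ≤ m (n + 1) := fun n => by
    have h1 := (hR (n + 1)).M_le
    rw [hT] at h1
    exact (Nat.le_succ _).trans h1
  have he1 : ∀ n, e (n + 1) ≤ e n / 2 := fun n => by
    have h1 := (hR (n + 1)).e_le
    rw [hT] at h1
    exact h1
  have he0 : ∀ n, 0 < e n := fun n => (hR n).e_pos
  have hsI : ∀ n, (∀ j, 0 ≤ s n j) ∧ mass (s n) = 1 - (1 / 2) ^ n := fun n =>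
    ⟨(T n).2.1, (T n).2.2.1⟩
  -- the points `y n`
  set y : ℕ → V := fun n => s n + (1 / 2 : ℝ) ^ n • b n with hy
  -- the decreasing sets
  have hAmem : ∀ n j, ∃ b' ∈ Dl (m n), y (n + j) = s n + (1 / 2 : ℝ) ^ n • b' := by
    have key : ∀ n, ∀ b' ∈ Dl (m (n + 1)), ∃ b'' ∈ Dl (m n),
        s (n + 1) + (1 / 2 : ℝ) ^ (n + 1) • b' = s n + (1 / 2 : ℝ) ^ n • b'' := by
      intro n b' hb'
      refine ⟨(1 / 2 : ℝ) • b n + (1 / 2 : ℝ) • b', convex_Dl _ (hR n).mem (Dl_anti (hm2 n) hb')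
        (by norm_num) (by norm_num) (by norm_num), ?_⟩
      rw [hs1, smul_add, smul_smul, smul_smul, add_assoc]
      congr 2
    intro n j
    induction j generalizing n with
    | zero => exact ⟨b n, (hR n).mem, rfl⟩
    | succ j ih =>
      obtain ⟨b', hb', hb'e⟩ := ih (n + 1)
      obtain ⟨b'', hb'', hb''e⟩ := key n b' hb'
      refine ⟨b'', hb'', ?_⟩
      rw [← hb''e, ← hb'e, show n + (j + 1) = n + 1 + j by omega]
  have hySub : ∀ n, y n ∈ Sub := fun n =>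
    Sub_add (hsI n).1 (by positivity) (by rw [(hsI n).2]; linarith) (hR n).mem
  -- almost monotonicity of `Φ (y n)`
  have hΦstep : ∀ n, Φ (y (n + 1)) ≤ Φ (y n) + e n := by
    intro n
    obtain ⟨b'', hb'', h1⟩ := (hR n).cofinal (m (n + 1))
    have h2 := (hR (n + 1)).near b'' hb''
    have h3 : s (n + 1) + (1 / 2 : ℝ) ^ (n + 1) • b''
        = (1 / 2 : ℝ) • y n + (1 / 2 : ℝ) • (s n + (1 / 2 : ℝ) ^ n • b'') := by
      rw [hs1, hy, pow_succ]
      module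
    have h4 := hΦ2 (y n) (hySub n) (s n + (1 / 2 : ℝ) ^ n • b'')
      (Sub_add (hsI n).1 (by positivity) (by rw [(hsI n).2]; linarith) hb'')
    rw [← h3] at h4
    have h5 := he1 n
    change Φ (y (n + 1)) ≤ Φ (s (n + 1) + (1 / 2 : ℝ) ^ (n + 1) • b'') + e (n + 1) at h2
    change Φ (s n + (1 / 2 : ℝ) ^ n • b'') ≤ Φ (y n) + e n at h1
    linarith
  have hΦsum : ∀ n j, Φ (y (n + j)) ≤ Φ (y n) + 2 * e n - 2 * e (n + j) := by
    intro n j
    induction j with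
    | zero => simp
    | succ j ih =>
      have h1 := hΦstep (n + j)
      have h2 := he1 (n + j)
      have h3 : n + (j + 1) = n + j + 1 := by omega
      rw [h3]
      linarith
  have hgap : ∀ n j, gap Φ (y n) (y (n + j)) ≤ 2 * e n := by
    intro n j
    obtain ⟨b', hb', h1⟩ := hAmem n j
    have h2 : (1 / 2 : ℝ) • y n + (1 / 2 : ℝ) • y (n + j)
        = s n + (1 / 2 : ℝ) ^ n • ((1 / 2 : ℝ) • b n + (1 / 2 : ℝ) • b') := by
      rw [h1, hy]
      module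
    have h3 := (hR n).near ((1 / 2 : ℝ) • b n + (1 / 2 : ℝ) • b')
      (convex_Dl _ (hR n).mem hb' (by norm_num) (by norm_num) (by norm_num))
    change Φ (y n) ≤ Φ (s n + (1 / 2 : ℝ) ^ n • ((1 / 2 : ℝ) • b n + (1 / 2 : ℝ) • b')) + e n at h3
    rw [← h2] at h3
    have h4 := hΦsum n j
    have h5 := he0 (n + j)
    unfold gap
    linarith
  have hctrl : ∀ n j, ∀ c ∈ Bal n,
      |Ps ev p n c (y n) - Ps ev p n c (y (n + j))| ≤ K (n + 1) * (1 / 4) ^ n / 4 := by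
    intro n j c hc
    rw [hK1]
    exact (hR n).ctrl _ (hySub n) _ (hySub (n + j)) (hgap n j) c hc
  have hKκ : ∀ d j, K (d + j + 1) ≤ κ d := by
    intro d j
    induction j with
    | zero => rw [add_zero, hK1]; exact min_le_right _ _
    | succ j ih =>
      have h1 : K (d + (j + 1) + 1) ≤ K (d + (j + 1)) := by rw [hK1]; exact min_le_left _ _
      exact h1.trans ih
  have hκ0 : ∀ d, 0 < κ d := fun d => (hR d).k_pos
  refine ⟨s, b, m, κ, rfl, hs1, fun n => (hR n).mem, hm1, hm2, hsI, hAmem, hκ0, ?_⟩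
  intro d c hc n k hdn hnk
  change Ps ev p d c (s n) + (1 / 2) ^ n * (κ d / 2) ≤ Ps ev p d c (y k)
  -- the induction
  have hind : ∀ j, d + j ≤ k →
      κ d * (1 / 2 + (1 / 2) ^ (d + j) / 2) ≤
        2 ^ (d + j) * (Ps ev p d c (y k) - Ps ev p d c (s (d + j))) := by
    intro j
    induction j with
    | zero =>
      intro hk
      obtain ⟨i, hi⟩ := Nat.exists_eq_add_of_le hk
      rw [add_zero] at hi ⊢
      obtain ⟨b', hb', h1⟩ := hAmem d i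
      have h2 := (hR d).grow c hc b' hb'
      change Ps ev p d c (s d) + κ d ≤ Ps ev p d c (s d + (1 / 2 : ℝ) ^ d • b') at h2
      rw [← h1, ← hi] at h2
      have h3 : (1 : ℝ) ≤ 2 ^ d := one_le_pow₀ (by norm_num)
      have h4 : (1 / 2 : ℝ) ^ d ≤ 1 := pow_le_one₀ (by norm_num) (by norm_num)
      have h5 := hκ0 d
      have h6 : κ d * (1 / 2 + (1 / 2) ^ d / 2) ≤ κ d * 1 :=
        mul_le_mul_of_nonneg_left (by linarith) h5.le
      have h7 : κ d ≤ Ps ev p d c (y k) - Ps ev p d c (s d) := by linarith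
      nlinarith
    | succ j ih =>
      intro hk
      have hk' : d + j ≤ k := by omega
      have ih' := ih hk'
      obtain ⟨i, hi⟩ := Nat.exists_eq_add_of_le hk'
      -- control
      have hcB : c ∈ Bal (d + j) := ⟨hc.1, fun i hi => hc.2.1 i (by omega)⟩
      have h1 := hctrl (d + j) i c hcB
      rw [← hi, Ps_eq p (by omega : d ≤ d + j) hc.2.1, Ps_eq p (by omega : d ≤ d + j) hc.2.1] at h1
      have h2 : Ps ev p d c (s (d + j + 1)) ≤
          1 / 2 * Ps ev p d c (s (d + j)) + 1 / 2 * Ps ev p d c (y (d + j)) := by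
        have h3 : s (d + j + 1) = (1 / 2 : ℝ) • s (d + j) + (1 / 2 : ℝ) • y (d + j) := by
          rw [hs1, hy, pow_succ]
          module
        rw [h3]
        exact Ps_convex ha h d c _ _ (by norm_num) (by norm_num) (by norm_num)
      have h4 := (abs_le.1 h1).2
      have h5 := hKκ d j
      have h6 : K (d + j + 1) * (1 / 4) ^ (d + j) / 4 ≤ κ d * (1 / 4) ^ (d + j) / 4 := by
        have : (0 : ℝ) < (1 / 4) ^ (d + j) := by positivity
        nlinarith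
      have h7 : Ps ev p d c (y (d + j)) - Ps ev p d c (y k) ≤ κ d * (1 / 4) ^ (d + j) / 4 := by
        linarith
      have h8 : 1 / 2 * (Ps ev p d c (y k) - Ps ev p d c (s (d + j)))
          - 1 / 2 * (κ d * (1 / 4) ^ (d + j) / 4)
          ≤ Ps ev p d c (y k) - Ps ev p d c (s (d + j + 1)) := by linarith
      have h9 : (0 : ℝ) < 2 ^ (d + j + 1) := by positivity
      have h10 := mul_le_mul_of_nonneg_left h8 h9.le
      have h11 : (2 : ℝ) ^ (d + j + 1) * (1 / 2 * (Ps ev p d c (y k) - Ps ev p d c (s (d + j)))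
          - 1 / 2 * (κ d * (1 / 4) ^ (d + j) / 4))
          = 2 ^ (d + j) * (Ps ev p d c (y k) - Ps ev p d c (s (d + j)))
            - κ d * (2 ^ (d + j) * (1 / 4) ^ (d + j)) / 4 := by
        rw [pow_succ]; ring
      have h12 : (2 : ℝ) ^ (d + j) * (1 / 4) ^ (d + j) = (1 / 2) ^ (d + j) := by
        rw [← mul_pow]; norm_num
      rw [h11, h12] at h10
      have h13 : κ d * (1 / 2 + (1 / 2) ^ (d + j + 1) / 2)
          = κ d * (1 / 2 + (1 / 2) ^ (d + j) / 2) - κ d * (1 / 2) ^ (d + j) / 4 := by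
        rw [pow_succ]; ring
      have h14 : d + (j + 1) = d + j + 1 := by omega
      rw [h14, h13]
      linarith
  obtain ⟨j, rfl⟩ := Nat.exists_eq_add_of_le hdn
  have h1 := hind j hnk
  have h2 : κ d / 2 ≤ 2 ^ (d + j) * (Ps ev p d c (y k) - Ps ev p d c (s (d + j))) := by
    have h3 : (0 : ℝ) < (1 / 2) ^ (d + j) := by positivity
    have h4 := hκ0 d
    nlinarith
  have h3 : (0 : ℝ) < (1 / 2) ^ (d + j) := by positivity
  have h4 := mul_le_mul_of_nonneg_left h2 h3.le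
  have h5 : (1 / 2 : ℝ) ^ (d + j) * (2 ^ (d + j) * (Ps ev p d c (y k) - Ps ev p d c (s (d + j))))
      = Ps ev p d c (y k) - Ps ev p d c (s (d + j)) := by
    rw [← mul_assoc, ← mul_pow]; norm_num
  linarith

end Pool.Agent.Companion
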