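import Pool.Agent.Work.MP_19858b_an.James

set_option autoImplicit false

namespace Pool.Agent.Companion

open Filter Topology Set

variable {E : Type} [NormedAddCommGroup E] [NormedSpace ℝ E] {ev : ℕ → E →L[ℝ] ℝ}

/-- The perturbed coordinate functionals whose nonzero finite linear combinations do not attain
their supremum on the unit ball of `p`. -/
theorem exists_functionals (hE : IsC0 E ev) {p : Seminorm ℝ E} {a : ℝ} (ha : 0 < a)
    (h : ∀ x, a * ‖x‖ ≤ p x) (haus : ∀ θ : ℝ, 0 < θ → Aus ev p θ) :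
    ∃ hf : ℕ → E →L[ℝ] ℝ, (∀ i x, |hf i x - ev i x| ≤ tt i * ‖x‖) ∧
      ∀ d, ∀ c ∈ Sph d, ∀ x, p x ≤ 1 →
        (∑ i ∈ Finset.range d, c i • hf i) x < dn p (∑ i ∈ Finset.range d, c i • hf i) := by
  classical
  obtain ⟨s, b, m, κ, hs0, hs, hb, hm, hm', hsI, hA, hκ, H⟩ := james hE ha h haus
  have hsSub : ∀ n, s n ∈ Sub := fun n => ⟨(hsI n).1, by
    rw [(hsI n).2]
    have : (0 : ℝ) < (1 / 2) ^ n := by positivity
    linarith⟩
  -- limits of the averages
  have hlim : ∀ i, ∃ g : E →L[ℝ] ℝ, Tendsto (fun n => GG ev i (s n)) atTop (𝓝 g) := by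
    intro i
    refine cauchySeq_tendsto_of_complete (cauchySeq_of_le_geometric (1 / 2) (1 / 2) (by norm_num)
      fun n => ?_)
    rw [hs, map_add, map_smul, dist_eq_norm, sub_add_cancel_left, norm_neg, norm_smul,
      Real.norm_of_nonneg (by positivity), pow_succ]
    have h1 := GG_norm_le hE i (hb n).1
    rw [(hb n).2.2] at h1
    have h2 : (0 : ℝ) < (1 / 2) ^ n * (1 / 2) := by positivity
    nlinarith
  choose g hg using hlim
  have hgx : ∀ i x, |g i x| ≤ ‖x‖ := by
    intro i x
    have h1 : Tendsto (fun n => |GG ev i (s n) x|) atTop (𝓝 |g i x|) :=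
      (((ContinuousLinearMap.apply ℝ ℝ x).continuous.tendsto (g i)).comp (hg i)).abs
    refine le_of_tendsto' h1 fun n => ?_
    have h2 := ContinuousLinearMap.le_opNorm (GG ev i (s n)) x
    rw [Real.norm_eq_abs] at h2
    refine h2.trans ?_
    have h3 := (GG_norm_le hE i (hsSub n).1).trans (hsSub n).2
    have := norm_nonneg x
    nlinarith
  set hf : ℕ → E →L[ℝ] ℝ := fun i => ev i + tt i • g i with hhf
  refine ⟨hf, fun i x => ?_, ?_⟩
  · have h1 : hf i x - ev i x = tt i * g i x := by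
      simp [hhf]
    rw [h1, abs_mul, abs_of_pos (tt_pos i)]
    exact mul_le_mul_of_nonneg_left (hgx i x) (tt_pos i).le
  · intro d c hc x hx
    set F : E →L[ℝ] ℝ := ∑ i ∈ Finset.range d, c i • hf i with hF
    set N : ℝ := ∑ i ∈ Finset.range d, |c i| * tt i with hN
    have hN0 : 0 ≤ N := Finset.sum_nonneg fun i _ => mul_nonneg (abs_nonneg _) (tt_pos i).le
    -- convergence
    have hconv1 : Tendsto (fun n => HH ev d c (s n)) atTop (𝓝 F) := by
      unfold HH
      exact tendsto_finsetSum _ fun i _ => (tendsto_const_nhds.add ((hg i).const_smul (tt i))).const_smul (c i)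
    have hpow : Tendsto (fun n : ℕ => (1 / 2 : ℝ) ^ n) atTop (𝓝 0) :=
      tendsto_pow_atTop_nhds_zero_of_lt_one (by norm_num) (by norm_num)
    have hconv2 : Tendsto (fun n => HH ev d c (s n + (1 / 2 : ℝ) ^ n • b n)) atTop (𝓝 F) := by
      have h1 : Tendsto (fun n => (1 / 2 : ℝ) ^ n • LL ev d c (b n)) atTop (𝓝 0) := by
        rw [tendsto_zero_iff_norm_tendsto_zero]
        have h0 : Tendsto (fun n : ℕ => (1 / 2 : ℝ) ^ n * N) atTop (𝓝 0) := by
          have := hpow.mul_const N
          rwa [zero_mul] at this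
        refine squeeze_zero (fun n => norm_nonneg _) (fun n => ?_) h0
        rw [norm_smul, Real.norm_of_nonneg (by positivity)]
        exact mul_le_mul_of_nonneg_left (LL_norm_le hE d c (hb n)) (by positivity)
      have h2 := hconv1.add h1
      rw [add_zero] at h2
      refine h2.congr fun n => ?_
      rw [HH_add]
    have hdn : Tendsto (fun n => Ps ev p d c (s n + (1 / 2 : ℝ) ^ n • b n)) atTop
        (𝓝 (dn p F)) := by
      rw [tendsto_iff_dist_tendsto_zero]
      have h1 : Tendsto (fun n => 1 / a * ‖HH ev d c (s n + (1 / 2 : ℝ) ^ n • b n) - F‖) atTop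
          (𝓝 0) := by
        have := (tendsto_iff_norm_sub_tendsto_zero.1 hconv2).const_mul (1 / a)
        simpa using this
      refine squeeze_zero (fun n => dist_nonneg) (fun n => ?_) h1
      rw [Real.dist_eq]
      exact dn_sub_le ha h _ _
    have hlow : ∀ n, d ≤ n → Ps ev p d c (s n) + (1 / 2) ^ n * (κ d / 2) ≤ dn p F := by
      intro n hn
      exact ge_of_tendsto hdn (eventually_atTop.2 ⟨n, fun k hk => H d c hc n k hn hk⟩)
    -- choose the index
    have hκd := hκ d
    obtain ⟨M, hM⟩ : ∃ M : ℕ, ∀ k, M ≤ k → |ev k x| ≤ κ d / (4 * (N + 1)) := by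
      have := hE.tends x
      rw [Metric.tendsto_atTop] at this
      obtain ⟨M, hM⟩ := this (κ d / (4 * (N + 1))) (by positivity)
      exact ⟨M, fun k hk => by simpa using (hM k hk).le⟩
    set n := max d M with hn
    have hFx : F x ≤ Ps ev p d c (s n) + (1 / 2) ^ n * (κ d / 4) := by
      have h1 : Tendsto (fun k => HH ev d c (s k + (1 / 2 : ℝ) ^ k • b k) x) atTop (𝓝 (F x)) :=
        ((ContinuousLinearMap.apply ℝ ℝ x).continuous.tendsto F).comp hconv2
      refine le_of_tendsto h1 (eventually_atTop.2 ⟨n, fun k hk => ?_⟩)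
      obtain ⟨j, rfl⟩ := Nat.exists_eq_add_of_le hk
      obtain ⟨b', hb', hb'e⟩ := hA n j
      rw [hb'e, HH_add, _root_.add_apply, _root_.smul_apply, smul_eq_mul]
      have h2 : HH ev d c (s n) x ≤ Ps ev p d c (s n) := le_dn ha h _ hx
      have h3 : |LL ev d c b' x| ≤ N * (κ d / (4 * (N + 1))) :=
        LL_bound (m := m n) (fun k hk => hM k (((le_max_right d M).trans (hm n)).trans hk)) d c hb'
      have h4 : N * (κ d / (4 * (N + 1))) ≤ κ d / 4 := by
        rw [mul_div_assoc', div_le_div_iff₀ (by positivity) (by norm_num)]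
        nlinarith
      have h5 : LL ev d c b' x ≤ κ d / 4 := (le_abs_self _).trans (h3.trans h4)
      have h6 : (0 : ℝ) < (1 / 2) ^ n := by positivity
      have h7 := mul_le_mul_of_nonneg_left h5 h6.le
      linarith
    have h1 := hlow n (le_max_left _ _)
    have h2 : (0 : ℝ) < (1 / 2) ^ n := by positivity
    nlinarith

/-- Nonzero finite combinations do not attain their supremum. -/
theorem nonattain {p : Seminorm ℝ E} {hf : ℕ → E →L[ℝ] ℝ}
    (H : ∀ d, ∀ c ∈ Sph d, ∀ x, p x ≤ 1 →
        (∑ i ∈ Finset.range d, c i • hf i) x < dn p (∑ i ∈ Finset.range d, c i • hf i))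
    (d : ℕ) (c : ℕ → ℝ) (hc : ∃ i < d, c i ≠ 0) (x : E) (hx : p x ≤ 1) :
    ∃ z, p z ≤ 1 ∧ (∑ i ∈ Finset.range d, c i • hf i) x < (∑ i ∈ Finset.range d, c i • hf i) z := by
  classical
  obtain ⟨i0, hi0, hci0⟩ := hc
  obtain ⟨i1, hi1, hmax⟩ := Finset.exists_max_image (Finset.range d) (fun i => |c i|)
    ⟨i0, Finset.mem_range.2 hi0⟩
  set A : ℝ := |c i1| with hA
  have hA0 : 0 < A := lt_of_lt_of_le (abs_pos.2 hci0) (hmax i0 (Finset.mem_range.2 hi0))
  set c' : ℕ → ℝ := fun i => if i < d then c i / A else 0 with hc'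
  have hc'S : c' ∈ Sph d := by
    refine ⟨fun i => ?_, fun i hi => ?_, i1, Finset.mem_range.1 hi1, ?_⟩
    · simp only [hc']
      split_ifs with hi
      · rw [abs_div, abs_of_pos hA0, div_le_one hA0]
        exact hmax i (Finset.mem_range.2 hi)
      · simp
    · simp only [hc']
      rw [if_neg (by omega)]
    · simp only [hc']
      rw [if_pos (Finset.mem_range.1 hi1), abs_div, abs_of_pos hA0]
      exact div_self hA0.ne'
  have hsum : ∑ i ∈ Finset.range d, c i • hf i = A • ∑ i ∈ Finset.range d, c' i • hf i := by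
    rw [Finset.smul_sum]
    refine Finset.sum_congr rfl fun i hi => ?_
    simp only [hc']
    rw [if_pos (Finset.mem_range.1 hi), smul_smul, mul_div_cancel₀ _ hA0.ne']
  have h1 := H d c' hc'S x hx
  obtain ⟨z, hz1, hz2⟩ := exists_lt_dn (p := p) (∑ i ∈ Finset.range d, c' i • hf i)
    (show 0 < dn p (∑ i ∈ Finset.range d, c' i • hf i)
      - (∑ i ∈ Finset.range d, c' i • hf i) x by linarith)
  refine ⟨z, hz1.le, ?_⟩
  rw [hsum, _root_.smul_apply, _root_.smul_apply, smul_eq_mul, smul_eq_mul]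
  refine mul_lt_mul_of_pos_left ?_ hA0
  linarith

end Pool.Agent.Companion
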