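import Pool.Agent.Work.MP_19858b_an.Limit

set_option autoImplicit false

namespace Pool.Agent.Companion

open Filter Topology Set

variable {E : Type} [NormedAddCommGroup E] [NormedSpace ℝ E] {ev : ℕ → E →L[ℝ] ℝ}

/-- Every asymptotically smooth equivalent norm on `c_0` has a companion norm. -/
theorem companion_of_aus (hE : IsC0 E ev) {p : Seminorm ℝ E} (hp : Eqv p)
    (haus : ∀ θ : ℝ, 0 < θ → Aus ev p θ) :
    ∃ q : Seminorm ℝ E, Eqv q ∧ ∀ x : E, 1 < p x → ∀ y : E, p y ≤ 1 →
      ∃ z : E, p z ≤ 1 ∧ q (x - z) < q (x - y) := by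
  classical
  obtain ⟨a, b, ha, hb, hab⟩ := hp
  obtain ⟨hf, hf1, hf2⟩ := exists_functionals hE ha (fun x => (hab x).1) haus
  have hfx : ∀ i x, |hf i x| ≤ 3 / 2 * ‖x‖ := by
    intro i x
    have h1 := hf1 i x
    have h2 := hE.abs_le i x
    have h3 := tt_le i
    have h4 := abs_add_le (hf i x - ev i x) (ev i x)
    rw [sub_add_cancel] at h4
    have := norm_nonneg x
    nlinarith
  have hbdd : ∀ x, BddAbove (range fun i => |hf i x|) := fun x =>
    ⟨3 / 2 * ‖x‖, by rintro _ ⟨i, rfl⟩; exact hfx i x⟩
  let q : Seminorm ℝ E := Seminorm.of (fun x => ⨆ i, |hf i x|)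
    (fun x y => ciSup_le fun i => by
      rw [map_add]
      exact (abs_add_le _ _).trans (add_le_add (le_ciSup (hbdd x) i) (le_ciSup (hbdd y) i)))
    (fun r x => by
      have : (fun i => |hf i (r • x)|) = fun i => |r| * |hf i x| := by
        funext i; rw [map_smul, smul_eq_mul, abs_mul]
      rw [this, Real.norm_eq_abs, Real.mul_iSup_of_nonneg (abs_nonneg r)])
  have hq1 : ∀ i x, |hf i x| ≤ q x := fun i x => le_ciSup (hbdd x) i
  have hq2 : ∀ x M, (∀ i, |hf i x| ≤ M) → q x ≤ M := fun x M hM => ciSup_le hM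
  have hqlow : ∀ x, 1 / 2 * ‖x‖ ≤ q x := by
    intro x
    have h1 : ‖x‖ ≤ q x + 1 / 2 * ‖x‖ := by
      refine hE.norm_le x _ (by have := apply_nonneg q x; positivity) fun k => ?_
      have h2 := hf1 k x
      have h3 := hq1 k x
      have h4 := tt_le k
      have h5 := abs_sub_abs_le_abs_sub (ev k x) (hf k x)
      rw [abs_sub_comm] at h5
      have := norm_nonneg x
      nlinarith
    linarith
  refine ⟨q, ⟨1 / 2, 3 / 2, by norm_num, by norm_num, fun x => ⟨hqlow x, hq2 x _ fun i => hfx i x⟩⟩,
    ?_⟩
  intro x hx y hy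
  by_contra hcon
  push Not at hcon
  set w : E := x - y with hw
  set r : ℝ := q w with hr
  have hw0 : w ≠ 0 := by
    intro h0
    have : x = y := sub_eq_zero.1 h0
    rw [this] at hx
    linarith
  have hr0 : 0 < r := by
    have h1 := hqlow w
    have h2 := norm_pos_iff.2 hw0
    linarith
  -- separation
  have hqcont : Continuous q := by
    refine (LipschitzWith.of_dist_le_mul (K := Real.toNNReal (3 / 2)) fun x y => ?_).continuous
    rw [Real.dist_eq, dist_eq_norm, Real.coe_toNNReal _ (by norm_num)]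
    exact (abs_sub_map_le_sub q x y).trans (hq2 _ _ fun i => hfx i _)
  have hUopen : IsOpen {z : E | q (x - z) < r} :=
    isOpen_lt (hqcont.comp (continuous_const.sub continuous_id)) continuous_const
  have hUconv : Convex ℝ {z : E | q (x - z) < r} := by
    intro z hz z' hz' s t hs ht hst
    show q (x - (s • z + t • z')) < r
    have e1 : x - (s • z + t • z') = s • (x - z) + t • (x - z') := by
      have : x = s • x + t • x := by rw [← add_smul, hst, one_smul]
      rw [smul_sub, smul_sub]
      nth_rewrite 1 [this]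
      abel
    rw [e1]
    have h1 : q (x - z) < r := hz
    have h2 : q (x - z') < r := hz'
    have h3 := map_add_le_add q (s • (x - z)) (t • (x - z'))
    rw [map_smul_eq_mul, map_smul_eq_mul, Real.norm_of_nonneg hs, Real.norm_of_nonneg ht] at h3
    rcases hs.eq_or_lt with rfl | hs
    · have : t = 1 := by linarith
      subst this
      linarith
    · nlinarith
  have hBconv : Convex ℝ {z : E | p z ≤ 1} := by
    have := p.convex_closedBall 0 1
    rw [Seminorm.closedBall_zero_eq] at this
    exact this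
  have hdisj : Disjoint {z : E | q (x - z) < r} {z : E | p z ≤ 1} := by
    rw [Set.disjoint_left]
    intro z hz1 hz2
    have h1 := hcon z hz2
    have h2 : q (x - z) < r := hz1
    linarith
  obtain ⟨f, u, hf3, hf4⟩ := geometric_hahn_banach_open hUconv hUopen hBconv hdisj
  have hfy : u ≤ f y := hf4 y hy
  -- choose N
  obtain ⟨N, hN⟩ : ∃ N : ℕ, ∀ i, N ≤ i → |hf i w| ≤ r / 2 := by
    have h1 : Tendsto (fun i => |ev i w| + tt i * ‖w‖) atTop (𝓝 0) := by
      have := (hE.tends w).abs.add (tt_tendsto.mul_const ‖w‖)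
      simpa using this
    have h2 := (tendsto_order.1 h1).2 (r / 2) (by positivity)
    obtain ⟨N, hN⟩ := eventually_atTop.1 h2
    refine ⟨N, fun i hi => ?_⟩
    have h3 := hN i hi
    have h4 := hf1 i w
    have h5 := abs_sub_abs_le_abs_sub (hf i w) (ev i w)
    linarith
  -- key inequality
  have key : ∀ w' : E, (∀ i < N, hf i w' = 0) → ∀ s s' : ℝ, 0 < s → s < 1 →
      |s'| * q w' ≤ r / 4 → s * f w + s' * f w' < 0 := by
    intro w' hw' s s' hs0 hs1 hs'
    have h1 : q (x - (y + (s • w + s' • w'))) < r := by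
      have h2 : x - (y + (s • w + s' • w')) = (1 - s) • w - s' • w' := by
        rw [hw]; module
      rw [h2]
      refine lt_of_le_of_lt (hq2 _ (max ((1 - s) * r) (3 * r / 4)) fun i => ?_)
        (max_lt (by nlinarith) (by linarith))
      rw [map_sub, map_smul, map_smul, smul_eq_mul, smul_eq_mul]
      rcases lt_or_ge i N with hi | hi
      · rw [hw' i hi, mul_zero, sub_zero, abs_mul, abs_of_pos (by linarith : 0 < 1 - s)]
        exact le_max_of_le_left (mul_le_mul_of_nonneg_left (hq1 i w) (by linarith))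
      · refine le_max_of_le_right ?_
        have h3 := abs_sub (( 1 - s) * hf i w) (s' * hf i w')
        rw [abs_mul, abs_mul, abs_of_pos (by linarith : 0 < 1 - s)] at h3
        have h4 := hN i hi
        have h5 := abs_nonneg (hf i w)
        have h6 : |s'| * |hf i w'| ≤ |s'| * q w' :=
          mul_le_mul_of_nonneg_left (hq1 i w') (abs_nonneg _)
        nlinarith
    have h2 := hf3 _ h1
    rw [map_add, map_add, map_smul, map_smul, smul_eq_mul, smul_eq_mul] at h2
    linarith
  have hker : ∀ w' : E, (∀ i < N, hf i w' = 0) → f w' = 0 := by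
    intro w' hw'
    have hη : 0 < r / (4 * (q w' + 1)) := by
      have := apply_nonneg q w'
      positivity
    have hηq : r / (4 * (q w' + 1)) * q w' ≤ r / 4 := by
      have := apply_nonneg q w'
      rw [div_mul_eq_mul_div, div_le_div_iff₀ (by positivity) (by norm_num)]
      nlinarith
    have hs' : ∀ s' : ℝ, |s'| * q w' ≤ r / 4 → s' * f w' ≤ 0 := by
      intro s' h1
      have h2 : Tendsto (fun s : ℝ => s * f w + s' * f w') (𝓝[>] 0) (𝓝 (0 * f w + s' * f w')) :=
        (((continuous_id.mul continuous_const).add continuous_const).tendsto 0).mono_left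
          nhdsWithin_le_nhds
      have h3 : ∀ᶠ s in 𝓝[>] (0 : ℝ), s * f w + s' * f w' ≤ 0 := by
        filter_upwards [Ioo_mem_nhdsGT (show (0 : ℝ) < 1 by norm_num)] with s hs
        exact (key w' hw' s s' hs.1 hs.2 h1).le
      have h4 := le_of_tendsto h2 h3
      simpa using h4
    have h5 := hs' (r / (4 * (q w' + 1))) (by rw [abs_of_pos hη]; exact hηq)
    have h6 := hs' (-(r / (4 * (q w' + 1)))) (by rw [abs_neg, abs_of_pos hη]; exact hηq)
    nlinarith
  have hfw : f w < 0 := by
    have := key 0 (by simp) (1 / 2) 0 (by norm_num) (by norm_num) (by simp; positivity)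
    simp only [map_zero, mul_zero, add_zero] at this
    linarith
  have hfyu : f y ≤ u := by
    have h2 : Tendsto (fun s : ℝ => f (y + s • w)) (𝓝[>] 0) (𝓝 (f (y + (0 : ℝ) • w))) :=
      ((f.continuous.comp (continuous_const.add (continuous_id.smul continuous_const))).tendsto
        0).mono_left nhdsWithin_le_nhds
    have h3 : ∀ᶠ s in 𝓝[>] (0 : ℝ), f (y + s • w) ≤ u := by
      filter_upwards [Ioo_mem_nhdsGT (show (0 : ℝ) < 1 by norm_num)] with s hs
      refine (hf3 _ ?_).le
      show q (x - (y + s • w)) < r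
      have h4 : x - (y + s • w) = (1 - s) • w := by rw [hw]; module
      rw [h4, map_smul_eq_mul, Real.norm_of_nonneg (by linarith [hs.2])]
      nlinarith [hs.1]
    have h4 := le_of_tendsto h2 h3
    simpa using h4
  -- representation
  have hmem := mem_span_of_iInf_ker_le_ker (ι := Fin N) (𝕜 := ℝ)
    (L := fun i => (hf i : E →ₗ[ℝ] ℝ)) (K := (f : E →ₗ[ℝ] ℝ)) (by
      intro w' hw'
      rw [Submodule.mem_iInf] at hw'
      rw [LinearMap.mem_ker]
      exact hker w' fun i hi => by
        have := hw' ⟨i, hi⟩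
        rw [LinearMap.mem_ker] at this
        exact this)
  obtain ⟨c, hc⟩ := (Submodule.mem_span_range_iff_exists_fun ℝ).1 hmem
  set c' : ℕ → ℝ := fun i => if h : i < N then -c ⟨i, h⟩ else 0 with hc'
  have hrep : ∀ z, (∑ i ∈ Finset.range N, c' i • hf i) z = - f z := by
    intro z
    have h1 : f z = ∑ i : Fin N, c i * hf i z := by
      have := congrArg (fun g : E →ₗ[ℝ] ℝ => g z) hc
      simp only [LinearMap.sum_apply, LinearMap.smul_apply, smul_eq_mul] at this
      exact this.symm
    rw [h1, Finset.sum_range, _root_.sum_apply, ← Finset.sum_neg_distrib]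
    refine Finset.sum_congr rfl fun i _ => ?_
    rw [_root_.smul_apply, smul_eq_mul]
    simp only [hc', i.2, dif_pos]
    ring
  have hne : ∃ i < N, c' i ≠ 0 := by
    by_contra hall
    push Not at hall
    have h1 := hrep w
    rw [Finset.sum_eq_zero (fun i hi => by rw [hall i (Finset.mem_range.1 hi), zero_smul])] at h1
    simp only [_root_.zero_apply] at h1
    linarith
  obtain ⟨z, hz1, hz2⟩ := nonattain hf2 N c' hne y hy
  rw [hrep, hrep] at hz2
  have := hf4 z hz1
  linarith

end Pool.Agent.Companion
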